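import Pool.Agent.HSIO.Defs
import Pool.Agent.HS3.Category2
import Pool.Agent.Helper25.IO.Scales

/-!
# Hilbert-Smith, infinite orbits: closed pieces along scales, their thin slices, the Baire step
-/

set_option autoImplicit false
set_option linter.unusedSectionVars false
set_option linter.unusedVariables false

open Set MeasureTheory Metric Filter Topology
open scoped NNReal ENNReal

namespace Pool.Agent.HSIO

open Pool.Agent.Helper3.HS Pool.Agent.HS3 Pool.Agent.Helper25.IO Pool.Agent.Helper83.IO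

section closed

/-- A relation with a uniform bound, for the points of `N` near `x`, is closed. -/
theorem isClosed_rel {Q X : Type*} [TopologicalSpace Q] [MetricSpace X] {ι : Type*} {N : Set X} {r : ι → ℝ}
    {f : ι → Q → X → X} (hf : ∀ i, ∀ z : X, Continuous fun q : Q => f i q z) {x : Q → X} (hx : Continuous x)
    (hfx : ∀ i, Continuous fun q : Q => f i q (x q)) {B : ι → Q → X → ℝ}
    (hB : ∀ i, ∀ z, Continuous fun q : Q => B i q z) :
    IsClosed {q : Q | ∀ i, ∀ z ∈ N, dist z (x q) < r i → dist (f i q z) (f i q (x q)) ≤ B i q z} := by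
  have : {q : Q | ∀ i, ∀ z ∈ N, dist z (x q) < r i → dist (f i q z) (f i q (x q)) ≤ B i q z} =
      ⋂ i, ⋂ z, ⋂ (_ : z ∈ N), ({q : Q | dist z (x q) < r i}ᶜ ∪
        {q : Q | dist (f i q z) (f i q (x q)) ≤ B i q z}) := by
    ext q
    simp only [mem_ofPred_eq, mem_iInter, mem_union, mem_compl_iff]
    constructor
    · intro h i z hz
      by_cases hzx : dist z (x q) < r i
      · exact Or.inr (h i z hz hzx)
      · exact Or.inl hzx
    · intro h i z hz hzx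
      rcases h i z hz with h1 | h1
      · exact absurd hzx h1
      · exact h1
  rw [this]
  refine isClosed_iInter fun i => isClosed_iInter fun z => isClosed_iInter fun _ => ?_
  refine IsClosed.union ?_ ?_
  · exact (isOpen_lt (continuous_const.dist hx) continuous_const).isClosed_compl
  · exact isClosed_le ((hf i z).dist (hfx i)) (hB i z)

end closed

variable {d : ℕ} {X : Type*} [MetricSpace X] {G : Type*} [Group G] [TopologicalSpace G]
  [MulAction G X] [ContinuousSMul G X] {p : ℕ} [hp : Fact p.Prime]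
  {θ : Multiplicative ℤ_[p] →* G}

theorem isClosed_PcS (r : ℕ → ℝ) (N : Set X) (a₀ : ℤ_[p]) (l : ℕ) (b m : ℝ)
    (J : ℕ) : IsClosed (PcS θ r N a₀ l b m J) := by
  have h1 := isClosed_rel (Q := X) (X := X) (ι := ℤ_[p] × {j : ℕ // J ≤ j}) (N := N) (r := fun i => r i.2.1)
    (f := fun i _ z => θ (Multiplicative.ofAdd (a₀ + (p : ℤ_[p]) ^ l * i.1)) • z)
    (fun i z => continuous_const) (x := id) continuous_id (fun i => continuous_const_smul _)
    (B := fun i _ _ => m * r i.2.1 ^ b) (fun i z => continuous_const)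
  have h2 : PcS θ r N a₀ l b m J = closure N ∩ {q : X | ∀ i : ℤ_[p] × {j : ℕ // J ≤ j}, ∀ z ∈ N,
      dist z (id q) < r i.2.1 → dist (θ (Multiplicative.ofAdd (a₀ + (p : ℤ_[p]) ^ l * i.1)) • z)
        (θ (Multiplicative.ofAdd (a₀ + (p : ℤ_[p]) ^ l * i.1)) • id q) ≤ m * r i.2.1 ^ b} := by
    ext x
    constructor
    · rintro ⟨hx, h⟩
      exact ⟨hx, fun i z hz hzx => h i.1 i.2.1 i.2.2 z hz hzx⟩
    · rintro ⟨hx, h⟩
      exact ⟨hx, fun a j hj z hz hzx => h (a, ⟨j, hj⟩) z hz hzx⟩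
  rw [h2]
  exact isClosed_closure.inter h1

theorem isClosed_PcH {C : Set X} (hC : IsClosed C) (N : Set X) (a₀ : ℤ_[p])
    (l : ℕ) (b m : ℝ) (hb : 0 < b) (J : ℕ) : IsClosed (PcH θ C N a₀ l b m J) := by
  have h1 := isClosed_rel (Q := X) (X := X) (ι := ℤ_[p]) (N := N) (r := fun i => 1 / ((J : ℝ) + 1))
    (f := fun i _ z => θ (Multiplicative.ofAdd (a₀ + (p : ℤ_[p]) ^ l * i)) • z)
    (fun i z => continuous_const) (x := id) continuous_id (fun i => continuous_const_smul _)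
    (B := fun i x z => m * dist z x ^ b)
    (fun i z => continuous_const.mul ((continuous_const.dist continuous_id).rpow_const fun _ => Or.inr hb.le))
  have h2 : PcH θ C N a₀ l b m J = C ∩ (closure N ∩ {q : X | ∀ i : ℤ_[p], ∀ z ∈ N,
      dist z (id q) < 1 / ((J : ℝ) + 1) → dist (θ (Multiplicative.ofAdd (a₀ + (p : ℤ_[p]) ^ l * i)) • z)
        (θ (Multiplicative.ofAdd (a₀ + (p : ℤ_[p]) ^ l * i)) • id q) ≤ m * dist z q ^ b}) := by
    ext x
    constructor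
    · rintro ⟨hxC, hx, h⟩
      exact ⟨hxC, hx, fun i z hz hzx => h i z hz hzx⟩
    · rintro ⟨hxC, hx, h⟩
      exact ⟨hxC, hx, fun a z hz hzx => h a z hz hzx⟩
  rw [h2]
  exact hC.inter (isClosed_closure.inter h1)

/-- two points of a piece along scales -/
theorem dist_le_PcS {r : ℕ → ℝ} {N : Set X} {a₀ : ℤ_[p]} {l : ℕ} {b m : ℝ} {J : ℕ} {x x' : X}
    (hx : x ∈ PcS θ r N a₀ l b m J) (hx' : x' ∈ PcS θ r N a₀ l b m J) {j : ℕ} (hj : J ≤ j)
    (hxx : dist x x' < r j) (a : ℤ_[p]) :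
    dist (θ (Multiplicative.ofAdd (a₀ + (p : ℤ_[p]) ^ l * a)) • x)
      (θ (Multiplicative.ofAdd (a₀ + (p : ℤ_[p]) ^ l * a)) • x') ≤ m * r j ^ b :=
  dist_le_of_piece (f := fun z => θ (Multiplicative.ofAdd (a₀ + (p : ℤ_[p]) ^ l * a)) • z) hx.1
    (continuous_const_smul _).continuousAt hxx fun z hz hzx => hx'.2 a j hj z hz hzx

/-- two points of a Hoelder piece -/
theorem dist_le_PcH {C N : Set X} {a₀ : ℤ_[p]} {l : ℕ} {b m : ℝ} (hb : 0 < b) {J : ℕ} {x x' : X}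
    (hx : x ∈ PcH θ C N a₀ l b m J) (hx' : x' ∈ PcH θ C N a₀ l b m J)
    (hxx : dist x x' < 1 / ((J : ℝ) + 1)) (a : ℤ_[p]) :
    dist (θ (Multiplicative.ofAdd (a₀ + (p : ℤ_[p]) ^ l * a)) • x)
      (θ (Multiplicative.ofAdd (a₀ + (p : ℤ_[p]) ^ l * a)) • x') ≤ m * dist x x' ^ b := by
  set f : X → X := fun z => θ (Multiplicative.ofAdd (a₀ + (p : ℤ_[p]) ^ l * a)) • z with hf
  by_contra hcon
  rw [not_le] at hcon
  have hc : ContinuousAt (fun z => dist (f z) (f x') - m * dist z x' ^ b) x := by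
    apply ContinuousAt.sub
    · exact (continuous_const_smul _).continuousAt.dist continuousAt_const
    · exact (continuousAt_const.mul (((continuousAt_id).dist continuousAt_const).rpow_const (Or.inr hb.le)))
  have h1 : ∀ᶠ z in 𝓝 x, 0 < dist (f z) (f x') - m * dist z x' ^ b := by
    apply hc.eventually_const_lt
    linarith
  have h2 : ∀ᶠ z in 𝓝 x, dist z x' < 1 / ((J : ℝ) + 1) :=
    (continuousAt_id.dist continuousAt_const).eventually_lt_const hxx
  obtain ⟨z, hzN, hz1, hz2⟩ :=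
    ((mem_closure_iff_frequently.mp hx.2.1).and_eventually (h1.and h2)).exists
  have h3 := hx'.2.2 a z hzN hz2
  linarith

/-- all slices of the pieces are thin -/
theorem thin_PcS [MeasurableSpace ℤ_[p]] (ν : Measure ℤ_[p]) [IsProbabilityMeasure ν]
    {e : OpenPartialHomeomorph X (Fin (d + 1) → ℝ)} {K : ℝ≥0}
    (hK : LipschitzOnWith K e.symm e.target) {L : Set (Fin (d + 1) → ℝ)} (hL : IsCompact L)
    (hLt : L ⊆ e.target) {r : ℕ → ℝ} (hr : ∀ j, 0 < r j) (hr0 : Tendsto r atTop (𝓝 0))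
    {N : Set X} {a₀ : ℤ_[p]} {l : ℕ} {b m : ℝ} (hb : (d : ℝ) / (d + 2) < b) {J : ℕ} (k : ℕ)
    (i : Fin (d + 1)) (s : ℝ) :
    ThinFam ν (fun (q : ℤ_[p]) (u : Fin (d + 1) → ℝ) =>
      θ (Multiplicative.ofAdd (a₀ + (p : ℤ_[p]) ^ k * q)) • e.symm u) l (d + 2)
      {u ∈ L | e.symm u ∈ PcS θ r N a₀ l b m J ∧ u i = s} := by
  intro ε hε
  obtain ⟨σ₀, hσ₀⟩ := hL.isBounded.subset_closedBall 0
  set σ := max σ₀ 1 with hσd
  have hσ : 0 < σ := lt_of_lt_of_le one_pos (le_max_right _ _)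
  have hLσ : L ⊆ closedBall 0 σ := hσ₀.trans (closedBall_subset_closedBall (le_max_left _ _))
  have hK0 : (0 : ℝ) ≤ K := K.coe_nonneg
  have hK1 : (0 : ℝ) < (K : ℝ) + 1 := by positivity
  have hr' : ∀ j, 0 < r j / ((K : ℝ) + 1) := fun j => div_pos (hr j) hK1
  have hr0' : Tendsto (fun j => r j / ((K : ℝ) + 1)) atTop (𝓝 0) := by
    have := hr0.div_const ((K : ℝ) + 1)
    rwa [zero_div] at this
  obtain ⟨j, hj, E, s', h1, h2, h3, h4, h5⟩ := exists_thin_cells (c := 0) hσ i s hr' hr0'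
    (L := max m 0 * ((K : ℝ) + 1) ^ b) hb
    (mul_nonneg (le_max_right _ _) (Real.rpow_nonneg hK1.le b)) J hε
  refine ⟨E, fun n _ => s' n, ?_, fun n => measurable_const, fun n a => ?_, ?_⟩
  · rintro u ⟨huL, -, hus⟩
    exact h1 ⟨hLσ huL, hus⟩
  · rcases Set.eq_empty_or_nonempty (E n) with h0 | hne
    · rw [h0, empty_inter, image_empty, ediam_empty]
      exact zero_le
    · refine le_trans ?_ (h4 n hne)
      apply ediam_le
      rintro _ ⟨x, ⟨hx, hxL, hxP, -⟩, rfl⟩ _ ⟨z, ⟨hz, hzL, hzP, -⟩, rfl⟩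
      rw [edist_dist]
      apply ENNReal.ofReal_le_ofReal
      have h6 : dist (e.symm x) (e.symm z) < r j := by
        calc dist (e.symm x) (e.symm z) ≤ K * dist x z := hK.dist_le_mul x (hLt hxL) z (hLt hzL)
          _ ≤ K * (r j / ((K : ℝ) + 1)) := by
            have := (h3 n z hz x hx).le
            gcongr
          _ < r j := by
            rw [mul_div_assoc', div_lt_iff₀ hK1]
            have := hr j
            nlinarith
      have h7 := dist_le_PcS hxP hzP hj h6 ((p : ℤ_[p]) ^ k * a)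
      have h8 : a₀ + (p : ℤ_[p]) ^ k * ((p : ℤ_[p]) ^ l * a) = a₀ + (p : ℤ_[p]) ^ l * ((p : ℤ_[p]) ^ k * a) := by
        ring
      change dist (θ (Multiplicative.ofAdd (a₀ + (p : ℤ_[p]) ^ k * ((p : ℤ_[p]) ^ l * a))) • e.symm x)
        (θ (Multiplicative.ofAdd (a₀ + (p : ℤ_[p]) ^ k * ((p : ℤ_[p]) ^ l * a))) • e.symm z) ≤ _
      rw [h8]
      refine h7.trans ?_
      rw [mul_assoc, ← Real.mul_rpow hK1.le (hr' j).le, mul_div_cancel₀ _ hK1.ne']
      exact mul_le_mul_of_nonneg_right (le_max_left _ _) (Real.rpow_nonneg (hr j).le b)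
  · refine le_trans (le_of_eq ?_) h5
    apply tsum_congr
    intro n
    rw [lintegral_const, measure_univ, mul_one]

/-- powers of small numbers -/
theorem rpow_le_of_le_one {x b b' : ℝ} (hx : 0 ≤ x) (hx1 : x ≤ 1) (hb : b' ≤ b) (hb' : 0 < b') :
    x ^ b ≤ x ^ b' := by
  rcases hx.eq_or_lt with h | h
  · rw [← h, Real.zero_rpow hb'.ne', Real.zero_rpow (hb'.trans_le hb).ne']
  · exact Real.rpow_le_rpow_of_exponent_ge h hx1 hb

/-- **The Baire step.** `A ⊆ N`, and the regular pairs are not meagre in `ℤ_p × A`: some closed piece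
has interior in `A`. -/
theorem baire_pieces (hθ : Continuous θ) {r : ℕ → ℝ} (hr : ∀ j, 0 < r j) (hr0 : Tendsto r atTop (𝓝 0))
    {Cs : ℕ → Set X} (hCs : ∀ i, IsClosed (Cs i)) (ms : ℕ → ℝ) {n : ℕ} (hn : 0 < n) {N A : Set X} (hAN : A ⊆ N)
    (h : ¬ IsMeagre {q : ℤ_[p] × A | PtRegOn r n
        (fun z : X => θ (Multiplicative.ofAdd q.1) • z) N (q.2 : X) ∨
      ∃ i, (q.2 : X) ∈ Cs i ∧ HolAt n (ms i) N (fun z : X => θ (Multiplicative.ofAdd q.1) • z)
        (q.2 : X)}) :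
    ∃ (a₀ l J : ℕ) (b : ℚ) (m : ℕ), ∃ U : Set X, IsOpen U ∧ (U ∩ A).Nonempty ∧
      ((((n : ℝ) - 1) / (n + 1) < b ∧ U ∩ A ⊆ PcS θ r N (a₀ : ℤ_[p]) l b m J) ∨
      ∃ i, (ms i - 1) / (n + 1) < b ∧ (0 : ℝ) < b ∧ U ∩ A ⊆ PcH θ (Cs i) N (a₀ : ℤ_[p]) l b m J) := by
  classical
  have hcont : Continuous fun q : ℤ_[p] × A => θ (Multiplicative.ofAdd q.1) :=
    hθ.comp (continuous_ofAdd.comp continuous_fst)
  have hx : Continuous fun q : ℤ_[p] × A => (q.2 : X) := continuous_subtype_val.comp continuous_snd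
  -- the closed sets
  set S₁ : ℚ × ℕ × ℕ → Set (ℤ_[p] × A) := fun v =>
    {q | ∀ i : {j : ℕ // v.2.2 ≤ j}, ∀ z ∈ N, dist z (q.2 : X) < r i.1 →
      dist (θ (Multiplicative.ofAdd q.1) • z) (θ (Multiplicative.ofAdd q.1) • (q.2 : X)) ≤
        (v.2.1 : ℝ) * r i.1 ^ (v.1 : ℝ)} with hS₁
  set S₂ : ℕ × ℚ × ℕ × ℕ → Set (ℤ_[p] × A) := fun v =>
    {q | (q.2 : X) ∈ Cs v.1 ∧ ∀ _i : Unit, ∀ z ∈ N, dist z (q.2 : X) < 1 / ((v.2.2.2 : ℝ) + 1) →
      dist (θ (Multiplicative.ofAdd q.1) • z) (θ (Multiplicative.ofAdd q.1) • (q.2 : X)) ≤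
        (v.2.2.1 : ℝ) * dist z (q.2 : X) ^ (v.2.1 : ℝ)} with hS₂
  have hS₁c : ∀ v, IsClosed (S₁ v) := fun v =>
    isClosed_rel (ι := {j : ℕ // v.2.2 ≤ j}) (r := fun i => r i.1)
      (f := fun _ q z => θ (Multiplicative.ofAdd q.1) • z)
      (fun i z => hcont.smul continuous_const) hx (fun i => hcont.smul hx)
      (B := fun i _ _ => (v.2.1 : ℝ) * r i.1 ^ (v.1 : ℝ)) (fun i z => continuous_const)
  have hS₂c : ∀ v, (0 : ℝ) < v.2.1 → IsClosed (S₂ v) := fun v hv =>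
    ((hCs v.1).preimage hx).inter (isClosed_rel (ι := Unit) (r := fun _ => 1 / ((v.2.2.2 : ℝ) + 1))
      (f := fun _ q z => θ (Multiplicative.ofAdd q.1) • z)
      (fun i z => hcont.smul continuous_const) hx (fun i => hcont.smul hx)
      (B := fun _ q z => (v.2.2.1 : ℝ) * dist z (q.2 : X) ^ (v.2.1 : ℝ)) (fun i z =>
        continuous_const.mul ((continuous_const.dist hx).rpow_const fun _ => Or.inr hv.le)))
  -- one of them has interior
  by_contra hcon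
  push Not at hcon
  have key : ∀ T : Set (ℤ_[p] × A), (interior T).Nonempty → ∃ (a₀ l : ℕ) (U : Set X), IsOpen U ∧ (U ∩ A).Nonempty ∧
      ∀ (a : ℤ_[p]) (x : A), (x : X) ∈ U → ((a₀ : ℤ_[p]) + (p : ℤ_[p]) ^ l * a, x) ∈ T := by
    rintro T ⟨⟨a₁, x₁⟩, hq⟩
    obtain ⟨O₁, hO₁, O₂, hO₂, hOT⟩ := mem_nhds_prod_iff.mp (isOpen_interior.mem_nhds hq)
    obtain ⟨a₀, ha₀⟩ := (PadicInt.denseRange_natCast (p := p)).exists_mem_open isOpen_interior
      ⟨a₁, mem_interior_iff_mem_nhds.mpr hO₁⟩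
    obtain ⟨l, hl⟩ := exists_coset isOpen_interior ha₀
    obtain ⟨U, hU, hUO⟩ := isOpen_induced_iff.mp (isOpen_interior (s := O₂))
    refine ⟨a₀, l, U, hU, ⟨x₁, ?_, x₁.2⟩, ?_⟩
    · have : x₁ ∈ interior O₂ := mem_interior_iff_mem_nhds.mpr hO₂
      rw [← hUO] at this
      exact this
    · intro a x hx
      have h1 : x ∈ interior O₂ := by
        rw [← hUO]
        exact hx
      exact interior_subset (hOT (mk_mem_prod (interior_subset (hl a)) (interior_subset h1)))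
  apply h
  have hnd₁ : ∀ v : ℚ × ℕ × ℕ, ((n : ℝ) - 1) / (n + 1) < v.1 → IsNowhereDense (S₁ v) := by
    intro v hv
    rw [(hS₁c v).isNowhereDense_iff]
    by_contra hne
    obtain ⟨a₀, l, U, hU, hUA, hT⟩ := key _ (nonempty_iff_ne_empty.mpr hne)
    refine (hcon a₀ l v.2.2 v.1 v.2.1 U hU hUA).1 hv ?_
    rintro x ⟨hxU, hxA⟩
    exact ⟨subset_closure (hAN hxA), fun a j hj z hz hzx => hT a ⟨x, hxA⟩ hxU ⟨j, hj⟩ z hz hzx⟩
  have hnd₂ : ∀ v : ℕ × ℚ × ℕ × ℕ, (ms v.1 - 1) / (n + 1) < v.2.1 → (0 : ℝ) < v.2.1 → IsNowhereDense (S₂ v) := by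
    intro v hv hv0
    rw [(hS₂c v hv0).isNowhereDense_iff]
    by_contra hne
    obtain ⟨a₀, l, U, hU, hUA, hT⟩ := key _ (nonempty_iff_ne_empty.mpr hne)
    refine (hcon a₀ l v.2.2.2 v.2.1 v.2.2.1 U hU hUA).2 v.1 hv hv0 ?_
    rintro x ⟨hxU, hxA⟩
    exact ⟨(hT 0 ⟨x, hxA⟩ hxU).1, subset_closure (hAN hxA), fun a z hz hzx => (hT a ⟨x, hxA⟩ hxU).2 () z hz hzx⟩
  have hsub : {q : ℤ_[p] × A | PtRegOn r n
        (fun z : X => θ (Multiplicative.ofAdd q.1) • z) N (q.2 : X) ∨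
      ∃ i, (q.2 : X) ∈ Cs i ∧ HolAt n (ms i) N (fun z : X => θ (Multiplicative.ofAdd q.1) • z)
        (q.2 : X)} ⊆ (⋃ v : {v : ℚ × ℕ × ℕ // ((n : ℝ) - 1) / (n + 1) < v.1}, S₁ v.1) ∪
      ⋃ v : {v : ℕ × ℚ × ℕ × ℕ // (ms v.1 - 1) / (n + 1) < v.2.1 ∧ (0 : ℝ) < v.2.1}, S₂ v.1 := by
    rintro ⟨a, x⟩ (hq | ⟨i, hxi, hq⟩)
    · left
      obtain ⟨b, hb, C, hev⟩ := hq
      obtain ⟨b', hb1, hb2⟩ := exists_rat_btwn hb
      have hn1 : (1 : ℝ) ≤ n := by exact_mod_cast hn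
      have hb0 : (0 : ℝ) < b' := lt_of_le_of_lt (div_nonneg (by linarith) (by linarith)) hb1
      obtain ⟨m, hm⟩ := exists_nat_ge C
      obtain ⟨J, hJ⟩ := eventually_atTop.mp (hev.and (hr0.eventually_lt_const one_pos))
      refine mem_iUnion.mpr ⟨⟨(b', m, J), hb1⟩, ?_⟩
      rintro ⟨j, hj⟩ z hz hzx
      obtain ⟨h1, h2⟩ := hJ j hj
      calc dist (θ (Multiplicative.ofAdd a) • z) (θ (Multiplicative.ofAdd a) • (x : X))
          ≤ C * r j ^ b := h1 z hz hzx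
        _ ≤ (m : ℝ) * r j ^ b := mul_le_mul_of_nonneg_right hm (Real.rpow_nonneg (hr j).le b)
        _ ≤ (m : ℝ) * r j ^ (b' : ℝ) :=
          mul_le_mul_of_nonneg_left (rpow_le_of_le_one (hr j).le h2.le hb2.le hb0) (Nat.cast_nonneg m)
    · right
      obtain ⟨b, L, hb, hb0, hev⟩ := hq
      obtain ⟨b', hb1, hb2⟩ := exists_rat_btwn (max_lt hb hb0)
      have hb0' : (0 : ℝ) < b' := (le_max_right _ _).trans_lt hb1
      obtain ⟨m, hm⟩ := exists_nat_ge L
      obtain ⟨ε, hε, hball⟩ := Metric.eventually_nhds_iff.mp hev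
      obtain ⟨J, hJ⟩ := exists_nat_one_div_lt hε
      refine mem_iUnion.mpr ⟨⟨(i, b', m, J), (le_max_left _ _).trans_lt hb1, hb0'⟩, hxi, ?_⟩
      rintro _ z hz hzx
      have h1 : dist z (x : X) ≤ 1 := by
        refine hzx.le.trans ?_
        rw [div_le_one (by positivity)]
        have : (0 : ℝ) ≤ J := Nat.cast_nonneg J
        simp
      calc dist (θ (Multiplicative.ofAdd a) • z) (θ (Multiplicative.ofAdd a) • (x : X))
          ≤ L * dist z (x : X) ^ b := hball (hzx.trans hJ) hz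
        _ ≤ (m : ℝ) * dist z (x : X) ^ b := mul_le_mul_of_nonneg_right hm (Real.rpow_nonneg dist_nonneg b)
        _ ≤ (m : ℝ) * dist z (x : X) ^ (b' : ℝ) :=
          mul_le_mul_of_nonneg_left (rpow_le_of_le_one dist_nonneg h1 hb2.le hb0') (Nat.cast_nonneg m)
  refine IsMeagre.mono hsub ?_
  apply IsMeagre.union
  · exact isMeagre_iUnion fun v => (hnd₁ v.1 v.2).isMeagre
  · exact isMeagre_iUnion fun v => (hnd₂ v.1 v.2.1 v.2.2).isMeagre

end Pool.Agent.HSIO
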