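import Pool.Agent.HSIO.Fam
import Pool.Agent.HSIO.Pieces
import Pool.Agent.Helper70.IO.Hol
import Pool.Agent.Helper70.IO.En
import Pool.Agent.Helper22.LR.Sep
import Pool.Agent.HS3.OldClass

/-!
# The abstract hypothesis from the tameness of the invariant continua
-/

set_option autoImplicit false
set_option linter.unusedSectionVars false
set_option linter.unusedVariables false

open Set MeasureTheory Metric Filter Topology TopologicalSpace
open scoped NNReal ENNReal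

namespace Pool.Agent.HSIO

open Pool.Agent.Helper3.HS Pool.Agent.HS3 Pool.Agent.Helper25.IO
open Pool.Agent.Helper83.IO (Mv2 ThinFam mv2_thin)

section free

variable {X : Type*} [MetricSpace X] {G : Type*} [Group G] [TopologicalSpace G]
  [MulAction G X] [ContinuousSMul G X] {p : ℕ} [hp : Fact p.Prime]

/-- A point with infinite orbit is not fixed by any nonzero element. -/
theorem free_of_infOrb {θ : Multiplicative ℤ_[p] →* G} (hθ : Continuous θ) {x : X}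
    (hx : ∀ k : ℕ, ∃ a : ℤ_[p], θ (Multiplicative.ofAdd ((p : ℤ_[p]) ^ k * a)) • x ≠ x) {a : ℤ_[p]} (ha : a ≠ 0) :
    θ (Multiplicative.ofAdd a) • x ≠ x := by
  intro hfix
  -- all multiples of `a` fix `x`
  have h1 : ∀ b : ℤ_[p], θ (Multiplicative.ofAdd (b * a)) • x = x := by
    have hcl : IsClosed {b : ℤ_[p] | θ (Multiplicative.ofAdd (b * a)) • x = x} := by
      apply isClosed_eq _ continuous_const
      exact (hθ.comp (continuous_ofAdd.comp (continuous_id.mul continuous_const))).smul continuous_const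
    have hdense : Dense {b : ℤ_[p] | θ (Multiplicative.ofAdd (b * a)) • x = x} := by
      refine (PadicInt.denseRange_natCast (p := p)).mono ?_
      rintro _ ⟨n, rfl⟩
      show θ (Multiplicative.ofAdd ((n : ℤ_[p]) * a)) • x = x
      induction n with
      | zero =>
        rw [Nat.cast_zero, zero_mul, ofAdd_zero, map_one, one_smul]
      | succ n ih =>
        rw [Nat.cast_succ, add_mul, one_mul, ofAdd_add, map_mul, mul_smul, hfix, ih]
    intro b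
    have := hcl.closure_eq ▸ hdense b
    exact this
  obtain ⟨b, hb⟩ := hx (PadicInt.valuation a)
  apply hb
  have h2 := PadicInt.unitCoeff_spec ha
  have h3 : (p : ℤ_[p]) ^ PadicInt.valuation a * b = (b * ((PadicInt.unitCoeff ha)⁻¹ : ℤ_[p]ˣ)) * a := by
    have h4 : (((PadicInt.unitCoeff ha)⁻¹ : ℤ_[p]ˣ) : ℤ_[p]) * (PadicInt.unitCoeff ha : ℤ_[p]) = 1 :=
      Units.inv_mul _
    calc (p : ℤ_[p]) ^ PadicInt.valuation a * b
        = b * ((((PadicInt.unitCoeff ha)⁻¹ : ℤ_[p]ˣ) : ℤ_[p]) * (PadicInt.unitCoeff ha : ℤ_[p])) *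
          (p : ℤ_[p]) ^ PadicInt.valuation a := by rw [h4]; ring
      _ = (b * ((PadicInt.unitCoeff ha)⁻¹ : ℤ_[p]ˣ)) *
          ((PadicInt.unitCoeff ha : ℤ_[p]) * (p : ℤ_[p]) ^ PadicInt.valuation a) := by ring
      _ = _ := by rw [← h2]
  rw [h3]
  exact h1 _

/-- A point with infinite orbit is not of finite type. -/
theorem notMem_Oinf_of_infOrb {θ : Multiplicative ℤ_[p] →* G} {x : X}
    (hx : ∀ k : ℕ, ∃ a : ℤ_[p], θ (Multiplicative.ofAdd ((p : ℤ_[p]) ^ k * a)) • x ≠ x) : x ∉ Oinf X θ := by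
  intro h
  obtain ⟨k, hk⟩ := mem_iUnion.mp h
  have hk' : ∀ᶠ x' in 𝓝 x, ∀ a : ℤ_[p], θ (Multiplicative.ofAdd ((p : ℤ_[p]) ^ k * a)) • x' = x' := hk
  obtain ⟨a, ha⟩ := hx k
  exact ha (hk'.self_of_nhds a)

end free

variable {d : ℕ} {X : Type*} [MetricSpace X] {G : Type*} [Group G] [TopologicalSpace G]
  [IsTopologicalGroup G] [MulAction G X] [ContinuousSMul G X]

/-- thin sets are small for the action in a chart -/
theorem mv2_of_thin {p : ℕ} [hp : Fact p.Prime]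
    [MeasurableSpace ℤ_[p]] [BorelSpace ℤ_[p]] {ν : Measure ℤ_[p]} [ν.IsAddHaarMeasure]
    [IsProbabilityMeasure ν] {θ : Multiplicative ℤ_[p] →* G} (hθ : Continuous θ)
    {e : OpenPartialHomeomorph X (Fin (d + 1) → ℝ)}
    {u₀ : Fin (d + 1) → ℝ} {r₁ : ℝ} (hr₁ : 0 < r₁) (hB : closedBall u₀ r₁ ⊆ e.target)
    (k : ℕ) (hsrc : ∀ a : ℤ_[p], ∀ u ∈ closedBall u₀ r₁,
      (θ.comp (mulHom ((p : ℤ_[p]) ^ k))) (Multiplicative.ofAdd a) • e.symm u ∈ e.source) (a₀ : ℤ_[p])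
    {l : ℕ} {Z : Set (Fin (d + 1) → ℝ)} (hZ : IsCompact Z)
    (hZU : Z ⊆ (cpre (θ := θ.comp (mulHom ((p : ℤ_[p]) ^ k))) (hθ.comp (continuous_mulHom _)) hr₁ hB hsrc).U)
    (hthin : ThinFam ν (fun (q : ℤ_[p]) (u : Fin (d + 1) → ℝ) =>
      θ (Multiplicative.ofAdd (a₀ + (p : ℤ_[p]) ^ k * q)) • e.symm u) l (d + 2) Z)
    (y : Fin (d + 1) → ℝ) (t : ℝ) :
    Mv2 (cpre (θ := θ.comp (mulHom ((p : ℤ_[p]) ^ k))) (hθ.comp (continuous_mulHom _)) hr₁ hB hsrc) y t Z := by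
  set D := cpre (θ := θ.comp (mulHom ((p : ℤ_[p]) ^ k))) (hθ.comp (continuous_mulHom _)) hr₁ hB hsrc with hD
  have hUB : ∀ u ∈ D.U, u ∈ closedBall u₀ r₁ := fun u hu => ball_subset_closedBall hu.1
  refine mv2_thin ν D (fun (q : ℤ_[p]) (u : Fin (d + 1) → ℝ) =>
      θ (Multiplicative.ofAdd (a₀ + (p : ℤ_[p]) ^ k * q)) • e.symm u) ?_ ?_ ?_ hZ hZU l ?_ y t
  · have h1 : ContinuousOn (fun q : ℤ_[p] × (Fin (d + 1) → ℝ) => e.symm q.2) (univ ×ˢ D.U) :=
      e.symm.continuousOn.comp continuousOn_snd fun q hq => hB (hUB _ hq.2)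
    have h2 : ContinuousOn (fun q : ℤ_[p] × (Fin (d + 1) → ℝ) =>
        θ (Multiplicative.ofAdd (a₀ + (p : ℤ_[p]) ^ k * q.1))) (univ ×ˢ D.U) :=
      (hθ.comp (continuous_ofAdd.comp (continuous_const.add (continuous_const.mul continuous_fst)))).continuousOn
    exact h2.smul h1
  · intro a b u hu
    rw [hD, cpre_g _ hr₁ hB hsrc (hUB u hu)]
    show θ (Multiplicative.ofAdd (a₀ + (p : ℤ_[p]) ^ k * a)) •
      e.symm (e ((θ.comp (mulHom ((p : ℤ_[p]) ^ k))) (Multiplicative.ofAdd b) • e.symm u)) = _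
    rw [e.left_inv (hsrc b u (hUB u hu)), smul_smul, MonoidHom.comp_apply, mulHom_ofAdd, ← map_mul, ← ofAdd_add]
    congr 3
    ring
  · intro u hu v hv huv
    have h3 : e.symm u = e.symm v := smul_left_cancel _ huv
    exact e.symm.injOn (hB (hUB u hu)) (hB (hUB v hv)) h3
  · rw [Module.finrank_fintype_fun_eq_card, Fintype.card_fin]
    exact hthin

/-- **Row G1.** -/
theorem ioHyp_of_hypAt [MeasurableSpace X] [BorelSpace X] {p : ℕ} [hp : Fact p.Prime]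
    [MeasurableSpace ℤ_[p]] [BorelSpace ℤ_[p]] {ν : Measure ℤ_[p]} [ν.IsAddHaarMeasure]
    [IsProbabilityMeasure ν] {θ : Multiplicative ℤ_[p] →* G} (hθ : Continuous θ) {R : Set X}
    {e : OpenPartialHomeomorph X (Fin (d + 1) → ℝ)} {K : ℝ≥0}
    (hK : LipschitzOnWith K e e.source) (hK' : LipschitzOnWith K e.symm e.target)
    {x₀ : X} {W₀ : Set X} {r : ℕ → ℕ → ℝ} {Cs : ℕ → Set X} {ms : ℕ → ℝ} (hr : ∀ i j, 0 < r i j)
    (hr0 : ∀ i, Tendsto (r i) atTop (𝓝 0))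
    (hCs : ∀ i, IsClosed (Cs i) ∧ 1 ≤ ms i ∧ (μH[ms i] : Measure X) (Cs i) ≠ ∞)
    (hyp : ∀ A ⊆ W₀ ∩ InfOrb R θ, IsCompact A → IsConnected A → A.Nontrivial →
      (∃ k : ℕ, ∀ a : ℤ_[p], ∀ x ∈ A,
        θ (Multiplicative.ofAdd ((p : ℤ_[p]) ^ k * a)) • x ∈ A) →
      TameCont d (InfOrb R θ) p ν θ r Cs ms A)
    {u₀ : Fin (d + 1) → ℝ} {r₁ : ℝ} (hr₁ : 0 < r₁) (hB : closedBall u₀ r₁ ⊆ e.target)
    (hBR : ∀ u ∈ closedBall u₀ r₁, e.symm u ∈ R) (hBW : ∀ u ∈ closedBall u₀ r₁, e.symm u ∈ W₀)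
    {j₀ : ℕ} (hold : ∀ u ∈ closedBall u₀ r₁, e.symm u ∉ Oinf X θ → IsMeagre {a : ℤ_[p] |
      RegAt (d + 1)
        (fun y : X => θ (Multiplicative.ofAdd ((p : ℤ_[p]) ^ j₀ * a)) • y) (e.symm u)})
    (k : ℕ) (hsrc : ∀ a : ℤ_[p], ∀ u ∈ closedBall u₀ r₁,
      (θ.comp (mulHom ((p : ℤ_[p]) ^ k))) (Multiplicative.ofAdd a) • e.symm u ∈ e.source) :
    IOHyp (cpre (θ := θ.comp (mulHom ((p : ℤ_[p]) ^ k))) (hθ.comp (continuous_mulHom _)) hr₁ hB
      hsrc) := by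
  classical
  set D := cpre (θ := θ.comp (mulHom ((p : ℤ_[p]) ^ k))) (hθ.comp (continuous_mulHom _)) hr₁ hB hsrc with hD
  set N := InfOrb R θ with hN
  have hUB : ∀ u ∈ D.U, u ∈ closedBall u₀ r₁ := fun u hu => ball_subset_closedBall hu.1
  have hUt : closure D.U ⊆ e.target := (closure_minimal hUB isClosed_closedBall).trans hB
  -- the family of pieces
  let 𝒬 : Set (Set X) := insert (closure N) (range (fun w : ℕ × ℕ × ℕ × ℕ × ℚ × ℕ =>
      PcS θ (r w.1) N (w.2.1 : ℤ_[p]) w.2.2.1 (w.2.2.2.2.1 : ℝ) (w.2.2.2.2.2 : ℝ) w.2.2.2.1) ∪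
    {Q | ∃ v : ℕ × ℕ × ℕ × ℕ × ℚ × ℕ, (0 : ℝ) < v.2.2.2.2.1 ∧
      Q = PcH θ (Cs v.1) N (v.2.1 : ℤ_[p]) v.2.2.1 (v.2.2.2.2.1 : ℝ) (v.2.2.2.2.2 : ℝ) v.2.2.2.1})
  have h𝒬 : 𝒬.Countable := by
    apply Countable.insert
    apply (countable_range _).union
    refine (countable_range (fun v : ℕ × ℕ × ℕ × ℕ × ℚ × ℕ =>
      PcH θ (Cs v.1) N (v.2.1 : ℤ_[p]) v.2.2.1 (v.2.2.2.2.1 : ℝ) (v.2.2.2.2.2 : ℝ) v.2.2.2.1)).mono ?_
    rintro Q ⟨v, -, rfl⟩
    exact mem_range_self v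
  have hcl : ∀ Q ∈ 𝒬, IsClosed Q := by
    rintro Q (rfl | ⟨v, rfl⟩ | ⟨v, hv, rfl⟩)
    · exact isClosed_closure
    · exact isClosed_PcS _ _ _ _ _ _ _
    · exact isClosed_PcH (hCs v.1).1 _ _ _ _ _ hv _
  refine ioHyp_of_family D (e := e) hUt h𝒬 hcl ?_
  intro C hCc hCconn hCU hinv hmov
  have hCB : ∀ u ∈ C, u ∈ closedBall u₀ r₁ := fun u hu => hUB u (hCU hu)
  have hCt : C ⊆ e.target := fun u hu => hB (hCB u hu)
  have hg : ∀ a : ℤ_[p], ∀ u ∈ C, D.g a u = e (θ (Multiplicative.ofAdd ((p : ℤ_[p]) ^ k * a)) • e.symm u) := by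
    intro a u hu
    rw [hD, cpre_g _ hr₁ hB hsrc (hCB u hu)]
    rfl
  -- the continuum in the space
  set A : Set X := e.symm '' C with hA
  have hAinf : ∀ x ∈ A, ∀ k' : ℕ, ∃ a : ℤ_[p], θ (Multiplicative.ofAdd ((p : ℤ_[p]) ^ k' * a)) • x ≠ x := by
    rintro _ ⟨u, hu, rfl⟩ k'
    obtain ⟨b, hb⟩ := hmov u hu k'
    refine ⟨(p : ℤ_[p]) ^ k * b, fun h => hb ?_⟩
    rw [hg _ u hu]
    have h1 : (p : ℤ_[p]) ^ k * ((p : ℤ_[p]) ^ k' * b) = (p : ℤ_[p]) ^ k' * ((p : ℤ_[p]) ^ k * b) := by ring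
    rw [h1, h, e.right_inv (hCt hu)]
  have hAN : A ⊆ N := by
    rintro x hx
    refine ⟨?_, hAinf x hx⟩
    obtain ⟨u, hu, rfl⟩ := hx
    exact hBR u (hCB u hu)
  have hAW : A ⊆ W₀ ∩ N := by
    intro x hx
    refine ⟨?_, hAN hx⟩
    obtain ⟨u, hu, rfl⟩ := hx
    exact hBW u (hCB u hu)
  have hAc : IsCompact A := hCc.image_of_continuousOn (e.symm.continuousOn.mono hCt)
  have hAconn : IsConnected A := hCconn.image _ (e.symm.continuousOn.mono hCt)
  have hCnt : C.Nontrivial := by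
    obtain ⟨u, hu⟩ := hCconn.nonempty
    obtain ⟨b, hb⟩ := hmov u hu 0
    exact ⟨_, hinv _ u hu, u, hu, hb⟩
  have hAnt : A.Nontrivial := hCnt.image_of_injOn (e.symm.injOn.mono hCt)
  have hAinv : ∀ a : ℤ_[p], ∀ x ∈ A, θ (Multiplicative.ofAdd ((p : ℤ_[p]) ^ k * a)) • x ∈ A := by
    rintro a _ ⟨u, hu, rfl⟩
    refine ⟨D.g a u, hinv a u hu, ?_⟩
    rw [hg a u hu]
    exact e.left_inv (hsrc a u (hCB u hu))
  -- near a point of `A`
  have hnear : ∀ u ∈ C, ∀ U : Set X, U ∈ 𝓝 (e.symm u) → e.target ∩ e.symm ⁻¹' U ∈ 𝓝 u := fun u hu U hU =>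
    inter_mem (e.open_target.mem_nhds (hCt hu)) ((e.symm.continuousAt (hCt hu)).preimage_mem_nhds hU)
  rcases hyp A hAW hAc hAconn hAnt ⟨k, hAinv⟩ with ⟨B, hBc, hBcount, hBn⟩ | ⟨x, hx, W, hW, hen⟩ | hreg | hpairs
  · -- countable separators
    exfalso
    apply hBn
    have : CompactSpace A := isCompact_iff_compactSpace.mp hAc
    have : PreconnectedSpace A := isPreconnected_iff_preconnectedSpace.mp hAconn.isPreconnected
    refine Pool.Agent.Helper22.LR.no_countable_separator (p := p)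
      (fun a x => ⟨θ (Multiplicative.ofAdd ((p : ℤ_[p]) ^ k * a)) • (x : X), hAinv a x x.2⟩) ?_ ?_ ?_ ?_ hBc hBcount
    · refine Continuous.subtype_mk ?_ _
      exact (hθ.comp (continuous_ofAdd.comp (continuous_const.mul continuous_fst))).smul
        (continuous_subtype_val.comp continuous_snd)
    · intro x
      apply Subtype.ext
      show θ (Multiplicative.ofAdd ((p : ℤ_[p]) ^ k * 0)) • (x : X) = x
      rw [mul_zero, ofAdd_zero, map_one, one_smul]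
    · intro a b x
      apply Subtype.ext
      show θ (Multiplicative.ofAdd ((p : ℤ_[p]) ^ k * (a + b))) • (x : X) =
        θ (Multiplicative.ofAdd ((p : ℤ_[p]) ^ k * a)) • θ (Multiplicative.ofAdd ((p : ℤ_[p]) ^ k * b)) • (x : X)
      rw [mul_add, ofAdd_add, map_mul, mul_smul]
    · intro x a ha h
      have h1 : θ (Multiplicative.ofAdd ((p : ℤ_[p]) ^ k * a)) • (x : X) = x := congrArg Subtype.val h
      refine free_of_infOrb hθ (hAinf x x.2) (mul_ne_zero (pow_ne_zero _ ?_) ha) h1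
      exact_mod_cast hp.out.ne_zero
  · -- the energy condition
    obtain ⟨u, hu, rfl⟩ := hx
    refine ⟨u, hu, closure N, mem_insert _ _, e.target ∩ e.symm ⁻¹' (interior W),
      hnear u hu _ (interior_mem_nhds.mpr hW), fun v hv => subset_closure (hAN ⟨v, hv.1, rfl⟩), ?_⟩
    intro L hL hLO i
    have hen' : EnAt d ν θ N (interior W) := by
      intro ε hε
      obtain ⟨h, h0, h1, h2⟩ := hen ε hε
      refine ⟨h, h0, h1, le_trans (lintegral_mono fun a => ?_) h2⟩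
      refine (lintegral_mono fun y => ?_).trans (lintegral_mono_set interior_subset)
      exact pow_le_pow_left₀ zero_le (ediam_mono (image_mono (inter_subset_inter_right _
        (inter_subset_inter_left _ interior_subset)))) _
    have h3 := thin_energy ν hθ hK hK' hL (fun v hv => (hLO hv).1.1) isOpen_interior
      (fun v hv => (hLO hv).1.2) hen' k i
    filter_upwards [h3] with s hs y t
    exact mv2_of_thin hθ hr₁ hB k hsrc 0 (isCompact_slice hL (fun v hv => (hLO hv).1.1) isClosed_closure i s)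
      (fun v hv => (hLO hv.1).2) hs y t
  · -- the class `RegAt`
    exfalso
    obtain ⟨x, hx, hm⟩ := hreg j₀
    obtain ⟨u, hu, rfl⟩ := hx
    exact hm (hold u (hCB u hu) (notMem_Oinf_of_infOrb (hAinf _ ⟨u, hu, rfl⟩)))
  · -- the regular pairs
    obtain ⟨i₀, hi₀⟩ : ∃ i₀ : ℕ, ¬ IsMeagre {q : ℤ_[p] × A | PtRegOn (r i₀) (d + 1)
        (fun z : X => θ (Multiplicative.ofAdd q.1) • z) N (q.2 : X) ∨
        ∃ i, (q.2 : X) ∈ Cs i ∧ HolAt (d + 1) (ms i) N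
          (fun z : X => θ (Multiplicative.ofAdd q.1) • z) (q.2 : X)} := by
      by_contra hcon
      push Not at hcon
      apply hpairs
      refine (isMeagre_iUnion hcon).mono ?_
      rintro q (⟨i, hi⟩ | hq)
      · exact mem_iUnion.mpr ⟨i, Or.inl hi⟩
      · exact mem_iUnion.mpr ⟨0, Or.inr hq⟩
    obtain ⟨a₀, l, J, b, m, U, hU, ⟨x, hxU, hxA⟩, hcase⟩ := baire_pieces hθ (hr i₀) (hr0 i₀)
      (fun i => (hCs i).1) ms (Nat.succ_pos d) hAN hi₀
    obtain ⟨u, hu, rfl⟩ := hxA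
    have hO₁ := hnear u hu U (hU.mem_nhds hxU)
    rcases hcase with ⟨hb, hsub⟩ | ⟨j, hb, hb0, hsub⟩
    · have hb' : (d : ℝ) / (d + 2) < b := by
        refine lt_of_eq_of_lt ?_ hb
        push_cast
        congr 1 <;> ring
      refine ⟨u, hu, _, mem_insert_of_mem _ (Or.inl ⟨(i₀, a₀, l, J, b, m), rfl⟩), _, hO₁,
        fun v hv => hsub ⟨hv.2.2, v, hv.1, rfl⟩, ?_⟩
      intro L hL hLO i
      refine Eventually.of_forall fun s y t => ?_
      exact mv2_of_thin hθ hr₁ hB k hsrc a₀ (isCompact_slice hL (fun v hv => (hLO hv).1.1) (isClosed_PcS _ _ _ _ _ _ _) i s)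
        (fun v hv => (hLO hv.1).2) (thin_PcS ν hK' hL (fun v hv => (hLO hv).1.1) (hr i₀) (hr0 i₀) hb' k i s) y t
    · have hb' : (ms j - 1) / ((d : ℝ) + 2) < b := by
        refine lt_of_eq_of_lt ?_ hb
        push_cast
        congr 1
        ring
      refine ⟨u, hu, _, mem_insert_of_mem _ (Or.inr ⟨(j, a₀, l, J, b, m), hb0, rfl⟩), _, hO₁,
        fun v hv => hsub ⟨hv.2.2, v, hv.1, rfl⟩, ?_⟩
      intro L hL hLO i
      filter_upwards [thin_PcH (θ := θ) (N := N) (a₀ := a₀) (l := l) (m := m) (J := J) ν hK hK' hL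
        (fun v hv => (hLO hv).1.1) (hCs j).2.1 (hCs j).2.2 hb' hb0 k i] with s hs y t
      exact mv2_of_thin hθ hr₁ hB k hsrc a₀ (isCompact_slice hL (fun v hv => (hLO hv).1.1)
        (isClosed_PcH (hCs j).1 _ _ _ _ _ hb0 _) i s) (fun v hv => (hLO hv.1).2) hs y t

end Pool.Agent.HSIO
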