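import Pool.Agent.HSIO.Defs
import Pool.Agent.HS3.GoodCore

/-!
# Divisibility of the degree: no invariant components of the fibre on the walls
-/

set_option autoImplicit false
set_option linter.unusedSectionVars false
set_option linter.unusedVariables false

open Set MeasureTheory Metric Filter Topology
open scoped NNReal ENNReal Function

namespace Pool.Agent.HSIO

open Pool.Agent.Helper3.HS Pool.Agent.HS3

section split

variable {K : Type*} [TopologicalSpace K] [CompactSpace K] [T2Space K] {p : ℕ}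
  [hp : Fact p.Prime]

/-- An equivariant partition exists if no component is invariant. -/
theorem exists_split_comp {T : ℤ_[p] → K → K}
    (hT : Continuous (fun q : ℤ_[p] × K => T q.1 q.2))
    (h0 : ∀ x, T 0 x = x) (hadd : ∀ a b x, T (a + b) x = T a (T b x))
    (hno : ∀ x, ∃ a, T a x ∉ connectedComponent x) :
    ∃ A : Set K, IsClopen A ∧ (∀ b : ℤ_[p], ∀ z ∈ A, T (p * b) z ∈ A) ∧
      (∀ x, ∃ i < p, ∃ z ∈ A, T (i : ℤ_[p]) z = x) ∧
      ∀ i < p, ∀ j < p, i ≠ j → ∀ z ∈ A, ∀ w ∈ A, T (i : ℤ_[p]) z ≠ T (j : ℤ_[p]) w := by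
  have hTa : ∀ a, Continuous (T a) := fun a => hT.comp (continuous_const.prodMk continuous_id)
  let T' : ℤ_[p] → ConnectedComponents K → ConnectedComponents K := fun a =>
    (hTa a).connectedComponentsMap
  have hT'mk : ∀ a x, T' a (ConnectedComponents.mk x) = ConnectedComponents.mk (T a x) :=
    fun a x => rfl
  have hsurj : ∀ ξ : ConnectedComponents K, ∃ x, ConnectedComponents.mk x = ξ :=
    fun ξ => ConnectedComponents.surjective_coe ξ
  have hT'c : Continuous (fun q : ℤ_[p] × ConnectedComponents K => T' q.1 q.2) := by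
    have h1 : IsProperMap (ConnectedComponents.mk : K → ConnectedComponents K) :=
      ConnectedComponents.continuous_coe.isProperMap
    have h2 : IsProperMap (Prod.map (id : ℤ_[p] → ℤ_[p])
        (ConnectedComponents.mk : K → ConnectedComponents K)) :=
      isProperMap_id.prodMap h1
    have h3 : IsQuotientMap (Prod.map (id : ℤ_[p] → ℤ_[p])
        (ConnectedComponents.mk : K → ConnectedComponents K)) :=
      h2.isClosedMap.isQuotientMap h2.continuous
        (Function.surjective_id.prodMap ConnectedComponents.surjective_coe)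
    rw [h3.continuous_iff]
    exact ConnectedComponents.continuous_coe.comp hT
  obtain ⟨A, hAc, hAinv, hAcov, hAd⟩ := exists_split_inv hT'c
    (fun ξ => by
      obtain ⟨x, rfl⟩ := hsurj ξ
      rw [hT'mk, h0])
    (fun a b ξ => by
      obtain ⟨x, rfl⟩ := hsurj ξ
      rw [hT'mk, hT'mk, hT'mk, hadd])
    (fun ξ => by
      obtain ⟨x, rfl⟩ := hsurj ξ
      obtain ⟨a, ha⟩ := hno x
      refine ⟨a, fun h => ha ?_⟩
      rw [hT'mk, ConnectedComponents.coe_eq_coe'] at h
      exact h)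
  refine ⟨ConnectedComponents.mk ⁻¹' A, hAc.preimage ConnectedComponents.continuous_coe,
    fun b z hz => hAinv b _ hz, fun x => ?_, fun i hi j hj hij z hz w hw heq => ?_⟩
  · obtain ⟨i, hi, ζ, hζ, hζx⟩ := hAcov (ConnectedComponents.mk x)
    obtain ⟨z, rfl⟩ := hsurj ζ
    refine ⟨i, hi, T (-(i : ℤ_[p])) x, ?_, by rw [← hadd, add_neg_cancel, h0]⟩
    have h4 : ConnectedComponents.mk (T (-(i : ℤ_[p])) x) = ConnectedComponents.mk z := by
      rw [← hT'mk, ← hζx, hT'mk, hT'mk, ← hadd, neg_add_cancel, h0]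
    change ConnectedComponents.mk (T (-(i : ℤ_[p])) x) ∈ A
    rw [h4]
    exact hζ
  · exact hAd i hi j hj hij _ hz _ hw (by rw [hT'mk, hT'mk, heq])

end split

variable {V : Type*} [NormedAddCommGroup V] [NormedSpace ℝ V] [FiniteDimensional ℝ V]
  [MeasurableSpace V] [BorelSpace V] {μ : Measure V} [μ.IsAddHaarMeasure]
  {p : ℕ} [hp : Fact p.Prime]

namespace Wall

variable {D : PreDat V p} {P : Set V}

theorem sub (h : Wall μ D P) : P ⊆ D.U := subset_closure.trans h.cl

theorem compact (h : Wall μ D P) : IsCompact (closure P) := by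
  have : ProperSpace V := FiniteDimensional.proper ℝ V
  exact (D.hUb.subset h.sub).isCompact_closure

theorem inv_closure (h : Wall μ D P) (b : ℤ_[p]) {z : V} (hz : z ∈ closure P) :
    D.g (p * b) z ∈ closure P := by
  have h1 : D.g (p * b) '' closure P ⊆ closure (D.g (p * b) '' P) :=
    image_closure_subset_closure_image (D.hg _)
  have h2 : D.g (p * b) '' P ⊆ P := by
    rintro _ ⟨w, hw, rfl⟩
    exact h.inv b w hw
  exact closure_mono h2 (h1 ⟨z, hz, rfl⟩)

theorem inv_frontier (h : Wall μ D P) (b : ℤ_[p]) {z : V} (hz : z ∈ frontier P) :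
    D.g (p * b) z ∈ frontier P := by
  rw [h.op.frontier_eq] at hz ⊢
  refine ⟨h.inv_closure b hz.1, fun hmem => hz.2 ?_⟩
  have h1 := h.inv (-b) _ hmem
  rwa [mul_neg, D.inv _ (h.cl hz.1)] at h1

end Wall

/-- **The topological core.** The walls are the frontiers of the `P i`; no continuum in the fibre
on the walls is invariant. -/
theorem core_comp (D : Dat μ p) {F : V → V} (hF : ContinuousOn F (closure D.U))
    (hFinv : ∀ a, ∀ x ∈ D.U, F (D.g a x) = F x) {y : V} (hfr : ∀ x ∈ frontier D.U, F x ≠ y)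
    {M : ℕ} {P : ℕ → Set V} (hP : ∀ i < M, Wall μ D.toPreDat (P i))
    (hKP' : ∀ x ∈ D.U, F x = y → ∃ i < M, x ∈ P i)
    (hno : ∀ C : Set V, IsCompact C → IsConnected C → C ⊆ D.U → (∀ x ∈ C, F x = y) →
      (∀ x ∈ C, ∃ i < M, ∃ j < p, D.g (j : ℤ_[p]) x ∈ frontier (P i)) →
      (∀ a, ∀ x ∈ C, D.g a x ∈ C) → False)
    {k : ℝ} (hk : HasDeg μ D.U F y k) : ∃ m : ℤ, k = p * m := by
  classical
  have : ProperSpace V := FiniteDimensional.proper ℝ V
  have hUcl : D.U ⊆ closure D.U := subset_closure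
  have hclU : IsCompact (closure D.U) := D.hUb.isCompact_closure
  set K : Set V := {x | x ∈ D.U ∧ F x = y} with hKdef
  have hKcl : K = closure D.U ∩ F ⁻¹' {y} := by
    ext x
    constructor
    · rintro ⟨h1, h2⟩; exact ⟨hUcl h1, h2⟩
    · rintro ⟨h1, h2⟩
      refine ⟨?_, h2⟩
      by_contra hn
      exact hfr x (by rw [D.hU.frontier_eq]; exact ⟨h1, hn⟩) h2
  have hKc : IsCompact K := by
    rw [hKcl]
    exact hclU.of_isClosed_subset (hF.preimage_isClosed_of_isClosed isClosed_closure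
      isClosed_singleton) inter_subset_left
  have hKP : ∀ x ∈ K, ∃ i < M, x ∈ P i := fun x hx => hKP' x hx.1 hx.2
  have hPfr : ∀ i < M, IsCompact (frontier (P i)) := fun i hi =>
    (hP i hi).compact.of_isClosed_subset isClosed_frontier frontier_subset_closure
  have hPfrU : ∀ i < M, frontier (P i) ⊆ D.U := fun i hi =>
    frontier_subset_closure.trans (hP i hi).cl
  -- the walls
  set B : Set V := ⋃ i ∈ Finset.range M, ⋃ j ∈ Finset.range p, D.g (j : ℤ_[p]) '' frontier (P i)
    with hB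
  have hBmem : ∀ x, x ∈ B ↔ ∃ i < M, ∃ j < p, ∃ z ∈ frontier (P i), D.g (j : ℤ_[p]) z = x := by
    intro x
    rw [hB]
    simp only [mem_iUnion, Finset.mem_range, exists_prop, mem_image]
  have hBc : IsCompact B := by
    apply (Finset.range M).isCompact_biUnion
    intro i hi
    apply (Finset.range p).isCompact_biUnion
    intro j _
    exact (hPfr i (Finset.mem_range.mp hi)).image (D.hg _)
  have hBU : B ⊆ D.U := by
    intro x hx
    obtain ⟨i, hi, j, hj, z, hz, rfl⟩ := (hBmem x).mp hx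
    exact D.hgU _ z (hPfrU i hi hz)
  have hBinv : ∀ a, ∀ x ∈ B, D.g a x ∈ B := by
    intro a x hx
    obtain ⟨i, hi, j, hj, z, hz, rfl⟩ := (hBmem x).mp hx
    obtain ⟨j', hj', b, hb⟩ := exists_digit (a + (j : ℤ_[p]))
    refine (hBmem _).mpr ⟨i, hi, j', hj', D.g (p * b) z, (hP i hi).inv_frontier b hz, ?_⟩
    rw [← D.hgadd _ _ z (hPfrU i hi hz), ← D.hgadd _ _ z (hPfrU i hi hz), hb]
  have hB0 : μ B = 0 := by
    rw [hB]
    apply (measure_biUnion_null_iff (Finset.range M).countable_toSet).mpr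
    intro i hi
    apply (measure_biUnion_null_iff (Finset.range p).countable_toSet).mpr
    intro j hj
    exact (hP i (Finset.mem_range.mp hi)).null j (Finset.mem_range.mp hj)
  -- the chambers
  set E : ℕ → Set V := fun i => ⋃ l ∈ Finset.range i, ⋃ j ∈ Finset.range p,
    D.g (j : ℤ_[p]) '' closure (P l) with hE
  have hEmem : ∀ i x, x ∈ E i ↔ ∃ l < i, ∃ j < p, ∃ z ∈ closure (P l), D.g (j : ℤ_[p]) z = x := by
    intro i x
    rw [hE]
    simp only [mem_iUnion, Finset.mem_range, exists_prop, mem_image]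
  have hEc : ∀ i ≤ M, IsClosed (E i) := by
    intro i hi
    apply IsCompact.isClosed
    apply (Finset.range i).isCompact_biUnion
    intro l hl
    apply (Finset.range p).isCompact_biUnion
    intro j _
    exact (hP l (lt_of_lt_of_le (Finset.mem_range.mp hl) hi)).compact.image (D.hg _)
  set X : ℕ → Set V := fun i => P i \ E i with hX
  have hXo : ∀ i < M, IsOpen (X i) := fun i hi => (hP i hi).op.sdiff (hEc i hi.le)
  have hXP : ∀ i, X i ⊆ P i := fun i => sdiff_subset
  have hXc : ∀ i < M, closure (X i) ⊆ D.U := fun i hi => (closure_mono (hXP i)).trans (hP i hi).cl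
  have hXB : ∀ i < M, frontier (X i) ⊆ B := by
    intro i hi x hx
    have hxc : x ∈ closure (P i) := closure_mono (hXP i) (frontier_subset_closure hx)
    by_cases hxP : x ∈ P i
    · have hxE : x ∈ E i := by
        by_contra hn
        rw [(hXo i hi).frontier_eq] at hx
        exact hx.2 ⟨hxP, hn⟩
      obtain ⟨l, hl, j, hj, z, hz, rfl⟩ := (hEmem i x).mp hxE
      have hlM : l < M := hl.trans hi
      refine (hBmem _).mpr ⟨l, hlM, j, hj, z, ?_, rfl⟩
      rw [(hP l hlM).op.frontier_eq]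
      refine ⟨hz, fun hzP => ?_⟩
      have hopen : IsOpen (D.g (j : ℤ_[p]) '' P l) := D.image_open _ (hP l hlM).sub (hP l hlM).op
      have hdis : Disjoint (D.g (j : ℤ_[p]) '' P l) (X i) := by
        rw [Set.disjoint_left]
        rintro _ ⟨w, hw, rfl⟩ hw'
        exact hw'.2 ((hEmem i _).mpr ⟨l, hl, j, hj, w, subset_closure hw, rfl⟩)
      exact Set.disjoint_left.mp (hdis.closure_right hopen) ⟨z, hzP, rfl⟩
        (frontier_subset_closure hx)
    · refine (hBmem _).mpr ⟨i, hi, 0, hp.out.pos, x, ?_, ?_⟩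
      · rw [(hP i hi).op.frontier_eq]; exact ⟨hxc, hxP⟩
      · rw [Nat.cast_zero]; exact D.hg0 x ((hP i hi).cl hxc)
  have hXinv : ∀ i < M, ∀ b : ℤ_[p], ∀ z ∈ X i, D.g (p * b) z ∈ X i := by
    intro i hi b z hz
    have hzU := (hP i hi).sub (hXP i hz)
    refine ⟨(hP i hi).inv b z hz.1, fun hmem => hz.2 ?_⟩
    obtain ⟨l, hl, j, hj, w, hw, hwz⟩ := (hEmem i _).mp hmem
    have hwU := (hP l (hl.trans hi)).cl hw
    refine (hEmem i z).mpr ⟨l, hl, j, hj, D.g (p * (-b)) w,
      (hP l (hl.trans hi)).inv_closure (-b) hw, ?_⟩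
    rw [← D.inv (p * b) hzU, ← hwz, ← D.hgadd _ _ w hwU, ← D.hgadd _ _ w hwU]
    congr 1
    ring
  have hXd : ∀ i < M, ∀ i' < M, ∀ j < p, ∀ j' < p, (i, j) ≠ (i', j') →
      Disjoint (D.g (j : ℤ_[p]) '' X i) (D.g (j' : ℤ_[p]) '' X i') := by
    have c1 : ∀ i < M, ∀ j j' : ℕ, j < j' → j' < p →
        Disjoint (D.g (j : ℤ_[p]) '' X i) (D.g (j' : ℤ_[p]) '' X i) := by
      intro i hi j j' hjj hj'
      rw [Set.disjoint_left]
      rintro _ ⟨z, hz, rfl⟩ ⟨w, hw, hwz⟩
      have hzU := (hP i hi).sub (hXP i hz)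
      have hwU := (hP i hi).sub (hXP i hw)
      have h1 : D.g ((j' - j : ℕ) : ℤ_[p]) w = z := by
        rw [← D.inv (j : ℤ_[p]) hzU, ← hwz, ← D.hgadd _ _ w hwU, Nat.cast_sub hjj.le]
        congr 1
        ring
      exact Set.disjoint_left.mp ((hP i hi).disj (j' - j) (by omega) (by omega))
        ⟨w, subset_closure (hXP i hw), h1⟩ (subset_closure (hXP i hz))
    have c2 : ∀ i i' : ℕ, i < i' → i' < M → ∀ j < p, ∀ j' < p,
        Disjoint (D.g (j : ℤ_[p]) '' X i) (D.g (j' : ℤ_[p]) '' X i') := by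
      intro i i' hii hi' j hj j' hj'
      rw [Set.disjoint_left]
      rintro _ ⟨z, hz, rfl⟩ ⟨w, hw, hwz⟩
      have hiM := hii.trans hi'
      have hzU := (hP i hiM).sub (hXP i hz)
      have hwU := (hP i' hi').sub (hXP i' hw)
      apply hw.2
      obtain ⟨j'', hj'', b, hb⟩ := exists_digit (-(j' : ℤ_[p]) + (j : ℤ_[p]))
      refine (hEmem i' w).mpr ⟨i, hii, j'', hj'', D.g (p * b) z,
        (hP i hiM).inv_closure b (subset_closure (hXP i hz)), ?_⟩
      rw [← D.hgadd _ _ z hzU, ← hb, D.hgadd _ _ z hzU, ← hwz, D.inv _ hwU]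
    intro i hi i' hi' j hj j' hj' hne
    rcases lt_trichotomy i i' with h | h | h
    · exact c2 i i' h hi' j hj j' hj'
    · subst h
      have hjj : j ≠ j' := fun h => hne (by rw [h])
      rcases lt_or_gt_of_ne hjj with h | h
      · exact c1 i hi j j' h hj'
      · exact (c1 i hi j' j h hj).symm
    · exact (c2 i' i h hi j' hj' j hj).symm
  -- the open cover
  set O : Set V := ⋃ i ∈ Finset.range M, ⋃ j ∈ Finset.range p, D.g (j : ℤ_[p]) '' P i with hOdef
  have hOmem : ∀ x, x ∈ O ↔ ∃ i < M, ∃ j < p, ∃ z ∈ P i, D.g (j : ℤ_[p]) z = x := by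
    intro x
    rw [hOdef]
    simp only [mem_iUnion, Finset.mem_range, exists_prop, mem_image]
  have hOo : IsOpen O := isOpen_biUnion fun i hi => isOpen_biUnion fun j _ =>
    D.image_open _ (hP i (Finset.mem_range.mp (Finset.mem_coe.mp hi))).sub
      (hP i (Finset.mem_range.mp (Finset.mem_coe.mp hi))).op
  have hKO : ∀ x ∈ D.U, F x = y → x ∈ O := by
    intro x hx heq
    obtain ⟨i, hi, hxi⟩ := hKP x ⟨hx, heq⟩
    refine (hOmem x).mpr ⟨i, hi, 0, hp.out.pos, x, hxi, ?_⟩
    rw [Nat.cast_zero]; exact D.hg0 x hx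
  have hO : ∀ x ∈ O, x ∉ B → ∃ i < M, ∃ j < p, x ∈ D.g (j : ℤ_[p]) '' X i := by
    intro x hx hxB
    have hex : ∃ i, i < M ∧ ∃ j < p, ∃ z ∈ P i, D.g (j : ℤ_[p]) z = x := by
      obtain ⟨i, hi, h⟩ := (hOmem x).mp hx
      exact ⟨i, hi, h⟩
    obtain ⟨hi, j, hj, z, hz, hzx⟩ := Nat.find_spec hex
    set i := Nat.find hex with hidef
    have hzU := (hP i hi).sub hz
    refine ⟨i, hi, j, hj, z, ⟨hz, fun hzE => ?_⟩, hzx⟩
    obtain ⟨l, hl, j', hj', w, hw, hwz⟩ := (hEmem i z).mp hzE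
    have hlM : l < M := hl.trans hi
    have hwU := (hP l hlM).cl hw
    obtain ⟨j'', hj'', b, hb⟩ := exists_digit ((j : ℤ_[p]) + (j' : ℤ_[p]))
    have h1 : D.g (j'' : ℤ_[p]) (D.g (p * b) w) = x := by
      rw [← D.hgadd _ _ w hwU, ← hb, D.hgadd _ _ w hwU, hwz, hzx]
    by_cases hwP : D.g (p * b) w ∈ P l
    · exact Nat.find_min hex hl ⟨hlM, j'', hj'', _, hwP, h1⟩
    · apply hxB
      refine (hBmem x).mpr ⟨l, hlM, j'', hj'', _, ?_, h1⟩
      rw [(hP l hlM).op.frontier_eq]
      exact ⟨(hP l hlM).inv_closure b hw, hwP⟩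
  -- the fibre on the walls
  set Δ : Set V := {x | x ∈ B ∧ F x = y} with hΔ
  have hΔU : Δ ⊆ D.U := fun x hx => hBU hx.1
  have hΔc : IsCompact Δ := by
    have h1 : Δ = B ∩ F ⁻¹' {y} := rfl
    rw [h1]
    exact hBc.of_isClosed_subset ((hF.mono (hBU.trans hUcl)).preimage_isClosed_of_isClosed
      hBc.isClosed isClosed_singleton) inter_subset_left
  have hTΔ : ∀ a, ∀ x ∈ Δ, D.g a x ∈ Δ := fun a x hx =>
    ⟨hBinv a x hx.1, by rw [hFinv a x (hΔU hx)]; exact hx.2⟩
  have hΔcs : CompactSpace Δ := isCompact_iff_compactSpace.mp hΔc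
  set T : ℤ_[p] → Δ → Δ := fun a x => ⟨D.g a x, hTΔ a x x.2⟩ with hT
  have hTc : Continuous (fun q : ℤ_[p] × Δ => T q.1 q.2) := by
    apply Continuous.subtype_mk
    have h1 : Continuous (fun q : ℤ_[p] × Δ => ((q.1, (q.2 : V)) : ℤ_[p] × V)) := by fun_prop
    exact D.hgj.comp_continuous h1 (fun q => ⟨mem_univ _, hΔU q.2.2⟩)
  obtain ⟨A, hAc, hAinv, hAcov, hAd⟩ := exists_split_comp hTc
    (fun x => Subtype.ext (D.hg0 x (hΔU x.2))) (fun a b x => Subtype.ext (D.hgadd a b x (hΔU x.2)))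
    (fun x => by
      by_contra hcon
      push Not at hcon
      have hTa : ∀ a, Continuous (T a) := fun a => hTc.comp (continuous_const.prodMk continuous_id)
      refine hno (Subtype.val '' connectedComponent x)
        (isClosed_connectedComponent.isCompact.image continuous_subtype_val)
        (isConnected_connectedComponent.image _ continuous_subtype_val.continuousOn) ?_ ?_ ?_ ?_
      · rintro _ ⟨z, -, rfl⟩
        exact hΔU z.2
      · rintro _ ⟨z, -, rfl⟩
        exact z.2.2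
      · rintro _ ⟨z, -, rfl⟩
        obtain ⟨i, hi, j, hj, w, hw, hwz⟩ := (hBmem z).mp z.2.1
        obtain ⟨j', hj', b, hb⟩ := exists_digit (-(j : ℤ_[p]))
        have hwU := hPfrU i hi hw
        refine ⟨i, hi, j', hj', ?_⟩
        have h1 : D.g (j' : ℤ_[p]) (z : V) = D.g (p * (-b)) w := by
          rw [← hwz, ← D.hgadd _ _ w hwU]
          congr 1
          linear_combination -hb
        rw [h1]
        exact (hP i hi).inv_frontier (-b) hw
      · rintro a _ ⟨z, hz, rfl⟩
        refine ⟨T a z, ?_, rfl⟩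
        have h1 := (hTa a).image_connectedComponent_subset x
        have h2 : T a z ∈ connectedComponent (T a x) := h1 ⟨z, hz, rfl⟩
        rwa [← connectedComponent_eq (hcon a)] at h2)
  set A' : Set V := Subtype.val '' A with hA'
  have hA'Δ : A' ⊆ Δ := by rintro _ ⟨x, -, rfl⟩; exact x.2
  apply wall_core D hF hFinv hfr hBc hBU hBinv hB0 (A := A')
    ((hAc.isClosed.isCompact).image continuous_subtype_val) (fun x hx => (hA'Δ hx).1)
    _ _ _ hXo hXc hXB hXinv hXd hOo hKO hO hk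
  · rintro b _ ⟨x, hx, rfl⟩
    exact ⟨T (p * b) x, hAinv b x hx, rfl⟩
  · intro x hx heq
    obtain ⟨i, hi, z, hz, hzx⟩ := hAcov ⟨x, hx, heq⟩
    exact ⟨i, hi, z, ⟨z, hz, rfl⟩, congrArg Subtype.val hzx⟩
  · rintro i hi j hj hij _ ⟨z, hz, rfl⟩ _ ⟨w, hw, rfl⟩ heq
    exact hAd i hi j hj hij z hz w hw (Subtype.ext heq)

end Pool.Agent.HSIO

namespace Pool.Agent.HSIO

open Pool.Agent.Helper3.HS Pool.Agent.HS3

variable {d : ℕ} {X : Type*} [MetricSpace X] {G : Type*} [Group G] [TopologicalSpace G]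
  [MulAction G X] [ContinuousSMul G X] {p : ℕ} [hp : Fact p.Prime]

section

variable {e : OpenPartialHomeomorph X (Fin (d + 1) → ℝ)} {θ : Multiplicative ℤ_[p] →* G}
  {c : Fin (d + 1) → ℝ} {σ : ℝ} (hθ : Continuous θ) (hσ : 0 < σ) (hB : closedBall c σ ⊆ e.target)
  (hsrc : ∀ a : ℤ_[p], ∀ u ∈ closedBall c σ, θ (Multiplicative.ofAdd a) • e.symm u ∈ e.source)

theorem core_chart_comp {F : (Fin (d + 1) → ℝ) → (Fin (d + 1) → ℝ)} (hF : Continuous F)
    (hFT : ∀ a, ∀ u ∈ invSet e θ c σ, F (act e θ a u) = F u) {y : Fin (d + 1) → ℝ}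
    {M : ℕ} {P : ℕ → Set (Fin (d + 1) → ℝ)}
    (hP : ∀ i < M, Wall volume (cpre hθ hσ hB hsrc) (P i))
    (hKP : ∀ x ∈ invSet e θ c σ, F x = y → ∃ i < M, x ∈ P i)
    (hno : ∀ C : Set (Fin (d + 1) → ℝ), IsCompact C → IsConnected C → C ⊆ invSet e θ c σ →
      (∀ x ∈ C, F x = y) →
      (∀ x ∈ C, ∃ i < M, ∃ j < p, (cpre hθ hσ hB hsrc).g (j : ℤ_[p]) x ∈ frontier (P i)) →
      (∀ a, ∀ x ∈ C, (cpre hθ hσ hB hsrc).g a x ∈ C) → False)
    {k : ℝ} (hk : HasDeg volume (invSet e θ c σ) F y k) : ∃ m : ℤ, k = p * m := by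
  set D := cpre hθ hσ hB hsrc with hD
  have hkne := HasDeg.ne volume hk
  set U := invSet e θ c σ with hU
  have hUo : IsOpen U := invSet_isOpen hθ hB hsrc
  have hUQ : U ⊆ ball c σ := fun u hu => hu.1
  have hUc : U ⊆ closedBall c σ := hUQ.trans ball_subset_closedBall
  have hUb : Bornology.IsBounded U := isBounded_ball.subset hUQ
  have hcl : closure (ball c σ) = closedBall c σ := closure_ball c hσ.ne'
  have hFinv : ∀ a, ∀ x ∈ D.U, F (D.g a x) = F x := by
    intro a x hx
    rw [hD, cpre_g hθ hσ hB hsrc (hUc hx)]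
    exact hFT a x hx
  have hgim : ∀ a, ∀ O ⊆ ball c σ, D.g a '' O = act e θ a '' O := fun a O hO =>
    image_congr fun x hx => cpre_g hθ hσ hB hsrc (ball_subset_closedBall (hO hx)) a
  have hsign : ∀ a : ℤ_[p], ∃ s : ℝ, (s = 1 ∨ s = -1) ∧ ∀ U' ⊆ ball c σ, IsOpen U' → ∀ x ∈ U',
      HasDeg volume U' (D.g a) (D.g a x) s := by
    intro a
    apply exists_sign volume isOpen_ball isBounded_ball (convex_ball c σ).isPreconnected
      ⟨c, mem_ball_self hσ⟩ (D.hg a)
    · rw [hcl]
      intro x hx z hz h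
      rw [cpre_g hθ hσ hB hsrc hx, cpre_g hθ hσ hB hsrc hz] at h
      exact act_injOn hB hsrc a hx hz h
    · rw [hgim a _ Subset.rfl]
      exact smul_chart_isOpen hB (θ (Multiplicative.ofAdd a)) (hsrc a) _ Subset.rfl isOpen_ball
  by_cases hall : ∀ a, ∀ X' ⊆ U, IsOpen X' → ∀ x ∈ X', HasDeg volume X' (D.g a) (D.g a x) 1
  · set D' : Dat (volume : Measure (Fin (d + 1) → ℝ)) p := { toPreDat := D, hpos := hall } with hD'
    exact core_comp D' (F := F) (y := y) hF.continuousOn hFinv hkne hP hKP hno hk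
  · -- an orientation-reversing element
    push Not at hall
    obtain ⟨a, X', hX'U, hX'o, x₀, hx₀, hne⟩ := hall
    obtain ⟨s, hs1, hs⟩ := hsign a
    have hs' : s = -1 := by
      rcases hs1 with h | h
      · exact absurd (h ▸ hs X' (hX'U.trans hUQ) hX'o x₀ hx₀) hne
      · exact h
    have hclinv : ∀ x ∈ closure U, F (D.g a x) = F x := by
      have h1 : IsClosed {x | F (D.g a x) = F x} := isClosed_eq (hF.comp (D.hg a)) hF
      exact fun x hx => closure_minimal (fun x hx => hFinv a x hx) h1 hx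
    have hin : ∀ x ∈ closure U, F x = y → x ∈ U := by
      intro x hx heq
      by_contra hn
      exact hkne x (by rw [hUo.frontier_eq]; exact ⟨hx, hn⟩) heq
    have hcomp := HasDeg.comp volume hUo hUb hUo hUb (D.hg a) hF (y := y) (s := s) (k := k)
      (fun x hx heq => by
        rw [hclinv x hx] at heq
        exact D.hgU a x (hin x hx heq))
      (fun x hx heq => by
        rw [hclinv x (frontier_subset_closure hx)] at heq
        exact hkne x hx heq)
      (fun z hz _ => by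
        have h1 := hs U hUQ hUo (D.g (-a) z) (D.hgU _ z hz)
        rwa [D.inv' a hz] at h1) hk
    have hcomp' := hcomp.congr volume (F' := F) (fun x hx => hclinv x (frontier_subset_closure hx))
    have h2 := HasDeg.unique volume hUo hUb hF.continuousOn hk hcomp'
    rw [hs'] at h2
    refine ⟨0, ?_⟩
    push_cast
    linarith


end

end Pool.Agent.HSIO
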