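import Pool.Agent.HSIO.Hered
import Pool.Agent.HS3.Category2

/-!
# Countably Hoelder maps
-/

set_option autoImplicit false
set_option linter.unusedSectionVars false
set_option linter.unusedVariables false

open Set MeasureTheory Metric Filter Topology
open scoped NNReal ENNReal

namespace Pool.Agent.HSIO

open Pool.Agent.Helper3.HS Pool.Agent.HS3 Pool.Agent.Helper83.IO

/-- The map `f` is countably Hoelder on the set `R` (in dimension `n`): the set `R` is covered by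
countably many closed sets `C` such that for some real numbers `m ≥ 1` and `b > 0` with
`b > (m - 1) / (n + 1)` the `m`-dimensional Hausdorff measure of `C` is finite and the restriction
of `f` to `C` is Hoelder with exponent `b`. -/
def CountHol (n : ℕ) {X : Type*} [MetricSpace X] [MeasurableSpace X] [BorelSpace X] (R : Set X)
    (f : X → X) : Prop :=
  ∃ C : ℕ → Set X, R ⊆ ⋃ i, C i ∧ ∀ i, IsClosed (C i) ∧ ∃ m b L : ℝ, 1 ≤ m ∧ 0 < b ∧
    (m - 1) / (n + 1) < b ∧ (μH[m] : Measure X) (C i) ≠ ∞ ∧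
    ∀ y ∈ C i, ∀ z ∈ C i, dist (f y) (f z) ≤ L * dist y z ^ b

variable {d : ℕ} {X : Type*} [MetricSpace X] {G : Type*} [Group G] [TopologicalSpace G]
  [IsTopologicalGroup G] [MulAction G X] [ContinuousSMul G X]

/-- The hypothesis near one point from a uniform Hoelder condition on an open part of the closure of
the infinite orbits. -/
theorem hypAt_of_unif [MeasurableSpace X] [BorelSpace X] {p : ℕ} [hp : Fact p.Prime]
    [MeasurableSpace ℤ_[p]] {ν : Measure ℤ_[p]} {θ : Multiplicative ℤ_[p] →* G} {R : Set X}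
    {O : Set X} (hO : IsOpen O) {x₂ : X} (hx₂O : x₂ ∈ O) {m b L : ℝ}
    (hm : 1 ≤ m) (hb : 0 < b) (hmb : (m - 1) / ((d + 1 : ℕ) + 1) < b)
    (hfin : (μH[m] : Measure X) (closure (InfOrb R θ) ∩ O) ≠ ∞) {U : Set ℤ_[p]} (hU : IsOpen U)
    (hUn : U.Nonempty)
    (hol : ∀ a ∈ U, ∀ y ∈ closure (InfOrb R θ) ∩ O, ∀ z ∈ closure (InfOrb R θ) ∩ O,
      dist (θ (Multiplicative.ofAdd a) • y) (θ (Multiplicative.ofAdd a) • z) ≤ L * dist y z ^ b) :
    HypAt d R p ν θ x₂ := by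
  obtain ⟨ρ, hρ, hball⟩ := Metric.nhds_basis_closedBall.mem_iff.mp (hO.mem_nhds hx₂O)
  refine ⟨closedBall x₂ ρ, closedBall_mem_nhds x₂ hρ, fun _ j => 1 / ((j : ℝ) + 1),
    fun _ => closure (InfOrb R θ) ∩ closedBall x₂ ρ, fun _ => m, fun _ j => by positivity,
    fun _ => tendsto_one_div_add_atTop_nhds_zero_nat,
    fun _ => ⟨isClosed_closure.inter isClosed_closedBall, hm, ?_⟩,
    fun A hA hAc hAconn hnt hinv => ?_⟩
  · refine ne_top_of_le_ne_top hfin (measure_mono (inter_subset_inter_right _ hball))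
  · right; right; right
    have hne : A.Nonempty := hAconn.nonempty
    have : CompactSpace A := isCompact_iff_compactSpace.mp hAc
    have : Nonempty A := hne.to_subtype
    have hopen : IsOpen (U ×ˢ (univ : Set A)) := hU.prod isOpen_univ
    have hnon : (U ×ˢ (univ : Set A)).Nonempty := hUn.prod univ_nonempty
    have hnm : ¬ IsMeagre (U ×ˢ (univ : Set A)) := not_isMeagre_of_isOpen hopen hnon
    refine fun hmea => hnm (hmea.mono ?_)
    rintro ⟨a, x⟩ ⟨haU, -⟩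
    have hxN : (x : X) ∈ InfOrb R θ := (hA x.2).2
    have hxB : (x : X) ∈ closedBall x₂ ρ := (hA x.2).1
    refine Or.inr ⟨0, ⟨subset_closure hxN, hxB⟩, b, L, ?_, hb, ?_⟩
    · exact hmb
    · filter_upwards [hO.mem_nhds (hball hxB)] with z hzO hzN
      exact hol a haU z ⟨subset_closure hzN, hzO⟩ x ⟨subset_closure hxN, hball hxB⟩

/-- If the restriction of `f` to `C` is Hoelder with exponent `b` and `C` is small, it is Hoelder
with all smaller positive exponents. -/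
theorem hol_mono {f : X → X} {C : Set X} {b b' L : ℝ} (hb' : 0 < b') (hbb : b' ≤ b)
    (hsm : ∀ y ∈ C, ∀ z ∈ C, dist y z ≤ 1)
    (h : ∀ y ∈ C, ∀ z ∈ C, dist (f y) (f z) ≤ L * dist y z ^ b) :
    ∀ y ∈ C, ∀ z ∈ C, dist (f y) (f z) ≤ max L 0 * dist y z ^ b' := by
  intro y hy z hz
  have h1 : dist y z ^ b ≤ dist y z ^ b' := by
    rcases eq_or_lt_of_le (dist_nonneg (x := y) (y := z)) with h0 | h0
    · rw [← h0, Real.zero_rpow hb'.ne', Real.zero_rpow (hb'.trans_le hbb).ne']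
    · exact Real.rpow_le_rpow_of_exponent_ge h0 (hsm y hy z hz) hbb
  calc dist (f y) (f z) ≤ L * dist y z ^ b := h y hy z hz
    _ ≤ max L 0 * dist y z ^ b :=
        mul_le_mul_of_nonneg_right (le_max_left _ _) (Real.rpow_nonneg dist_nonneg _)
    _ ≤ max L 0 * dist y z ^ b' := mul_le_mul_of_nonneg_left h1 (le_max_right _ _)

/-- **Piecewise Hoelder actions.** If the set of the `a` whose map is countably Hoelder is not
meagre, there are no infinite orbits. -/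
theorem infOrb_eq_empty [MeasurableSpace X] [BorelSpace X] {p : ℕ} [hp : Fact p.Prime]
    [MeasurableSpace ℤ_[p]] [BorelSpace ℤ_[p]] {ν : Measure ℤ_[p]} [ν.IsAddHaarMeasure]
    [IsProbabilityMeasure ν] {θ : Multiplicative ℤ_[p] →* G} (hθ : Continuous θ) {R : Set X}
    (hRo : IsOpen R) (hR : R ⊆ regPts (d + 1) X)
    (hnm : ¬ IsMeagre {a : ℤ_[p] |
      CountHol (d + 1) R (fun x : X => θ (Multiplicative.ofAdd a) • x)}) :
    InfOrb R θ = ∅ := by
  by_contra hne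
  obtain ⟨x₁, hx₁⟩ := nonempty_iff_ne_empty.mpr hne
  obtain ⟨e, K, hxe, -, -⟩ := hR hx₁.1
  set E : Set X := closure (InfOrb R θ) with hE
  set B : Set X := e.source ∩ R ∩ ball x₁ (1 / 2) with hBdef
  have hBo : IsOpen B := (e.open_source.inter hRo).inter isOpen_ball
  have hBe : B ⊆ e.source := fun x hx => hx.1.1
  have hx₁B : x₁ ∈ B := ⟨⟨hxe, hx₁.1⟩, mem_ball_self (by norm_num)⟩
  obtain ⟨i1, i2⟩ := baire_chart e hBo hBe (isClosed_closure : IsClosed E)
  have i3 : Nonempty ↥(E ∩ B) := ⟨⟨x₁, subset_closure hx₁, hx₁B⟩⟩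
  set T : Set (Set ↥(E ∩ B)) := TopologicalSpace.countableBasis ↥(E ∩ B) with hT
  have hTc : T.Countable := TopologicalSpace.countable_countableBasis _
  have i4 : Countable T := hTc.to_subtype
  -- the closed sets of parameters
  set A : T × ℚ × ℕ → Set ℤ_[p] := fun q => {a |
    ((q.1 : Set ↥(E ∩ B)).Nonempty ∧ (0 : ℝ) < q.2.1 ∧ ∃ m : ℝ, 1 ≤ m ∧
      (m - 1) / ((d + 1 : ℕ) + 1) < (q.2.1 : ℝ) ∧
      (μH[m] : Measure X) (Subtype.val '' (q.1 : Set ↥(E ∩ B))) ≠ ∞) ∧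
    ∀ y ∈ (q.1 : Set ↥(E ∩ B)), ∀ z ∈ (q.1 : Set ↥(E ∩ B)),
      dist (θ (Multiplicative.ofAdd a) • (y : X)) (θ (Multiplicative.ofAdd a) • (z : X)) ≤
        (q.2.2 : ℝ) * dist (y : X) (z : X) ^ (q.2.1 : ℝ)} with hA
  have hcov : {a : ℤ_[p] | CountHol (d + 1) R (fun x : X => θ (Multiplicative.ofAdd a) • x)} ⊆
      ⋃ q, A q := by
    rintro a ⟨C, hCR, hC⟩
    obtain ⟨i, x, hx⟩ := nonempty_interior_of_iUnion_of_closed
      (f := fun i => (Subtype.val ⁻¹' C i : Set ↥(E ∩ B)))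
      (fun i => (hC i).1.preimage continuous_subtype_val) (by
        rw [eq_univ_iff_forall]
        rintro ⟨y, hyE, hyB⟩
        obtain ⟨i, hi⟩ := mem_iUnion.mp (hCR hyB.1.2)
        exact mem_iUnion.mpr ⟨i, hi⟩)
    obtain ⟨W, hWT, hxW, hWi⟩ := (TopologicalSpace.isBasis_countableBasis
      ↥(E ∩ B)).exists_subset_of_mem_open hx isOpen_interior
    have hWC : ∀ y ∈ W, (y : X) ∈ C i := fun y hy => by
      have : y ∈ (Subtype.val ⁻¹' C i : Set ↥(E ∩ B)) := interior_subset (hWi hy)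
      exact this
    obtain ⟨-, m, b, L, hm, hb, hmb, hfin, hol⟩ := hC i
    obtain ⟨b', hb1, hb2⟩ := exists_rat_btwn (max_lt hb hmb)
    obtain ⟨M, hM⟩ := exists_nat_ge (max L 0)
    refine mem_iUnion.mpr ⟨(⟨W, hWT⟩, b', M), ⟨⟨x, hxW⟩, (le_max_left _ _).trans_lt hb1, m, hm,
      ?_, ?_⟩, ?_⟩
    · exact (le_max_right _ _).trans_lt hb1
    · refine ne_top_of_le_ne_top hfin (measure_mono ?_)
      rintro _ ⟨y, hy, rfl⟩
      exact hWC y hy
    · intro y hy z hz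
      have hsm : ∀ u ∈ (Subtype.val '' W : Set X), ∀ v ∈ (Subtype.val '' W : Set X),
          dist u v ≤ 1 := by
        rintro _ ⟨u, hu, rfl⟩ _ ⟨v, hv, rfl⟩
        have h1 : dist (u : X) x₁ < 1 / 2 := u.2.2.2
        have h2 : dist (v : X) x₁ < 1 / 2 := v.2.2.2
        have := dist_triangle_right (u : X) (v : X) x₁
        linarith
      have h3 := hol_mono (f := fun x : X => θ (Multiplicative.ofAdd a) • x)
        ((le_max_left _ _).trans_lt hb1) hb2.le hsm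
        (fun u hu v hv => by
          obtain ⟨u', hu', rfl⟩ := hu
          obtain ⟨v', hv', rfl⟩ := hv
          exact hol _ (hWC u' hu') _ (hWC v' hv')) (y : X) ⟨y, hy, rfl⟩ (z : X) ⟨z, hz, rfl⟩
      refine h3.trans ?_
      gcongr
  obtain ⟨q, hq⟩ := exists_not_isMeagre hnm hcov
  have hAc : IsClosed (A q) := by
    by_cases hcond : ((q.1 : Set ↥(E ∩ B)).Nonempty ∧ (0 : ℝ) < q.2.1 ∧ ∃ m : ℝ, 1 ≤ m ∧
      (m - 1) / ((d + 1 : ℕ) + 1) < (q.2.1 : ℝ) ∧
      (μH[m] : Measure X) (Subtype.val '' (q.1 : Set ↥(E ∩ B))) ≠ ∞)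
    · have h1 : A q = ⋂ y ∈ (q.1 : Set ↥(E ∩ B)), ⋂ z ∈ (q.1 : Set ↥(E ∩ B)),
          {a : ℤ_[p] | dist (θ (Multiplicative.ofAdd a) • (y : X))
            (θ (Multiplicative.ofAdd a) • (z : X)) ≤
            (q.2.2 : ℝ) * dist (y : X) (z : X) ^ (q.2.1 : ℝ)} := by
        ext a
        simp only [hA, mem_ofPred_eq, mem_iInter]
        exact ⟨fun h => h.2, fun h => ⟨hcond, h⟩⟩
      rw [h1]
      have hc : ∀ x : X, Continuous fun a : ℤ_[p] => θ (Multiplicative.ofAdd a) • x := fun x =>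
        (hθ.comp continuous_ofAdd).smul continuous_const
      exact isClosed_biInter fun y _ => isClosed_biInter fun z _ =>
        isClosed_le ((hc _).dist (hc _)) continuous_const
    · have h1 : A q = ∅ := by
        ext a
        simp only [hA, mem_ofPred_eq, mem_empty_iff_false, iff_false]
        exact fun h => hcond h.1
      rw [h1]
      exact isClosed_empty
  have hint : (interior (A q)).Nonempty := by
    by_contra hcon
    rw [not_nonempty_iff_eq_empty] at hcon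
    exact hq ((hAc.isNowhereDense_iff.mpr hcon).isMeagre)
  obtain ⟨a₁, ha₁⟩ := hint
  obtain ⟨⟨y₀, hy₀⟩, hb, m, hm, hmb, hfin⟩ := (interior_subset ha₁ : a₁ ∈ A q).1
  have hqo : IsOpen (q.1 : Set ↥(E ∩ B)) :=
    (TopologicalSpace.isBasis_countableBasis ↥(E ∩ B)).isOpen q.1.2
  obtain ⟨O, hO, hOq⟩ := isOpen_induced_iff.1 hqo
  have hO1 : ∀ x ∈ E ∩ (O ∩ B), ∃ hx : x ∈ E ∩ B, (⟨x, hx⟩ : ↥(E ∩ B)) ∈ (q.1 : Set ↥(E ∩ B)) := by
    rintro x ⟨hxE, hxO, hxB⟩
    refine ⟨⟨hxE, hxB⟩, ?_⟩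
    rw [← hOq]
    exact hxO
  have hy₀O : (y₀ : X) ∈ O ∩ B := by
    refine ⟨?_, y₀.2.2⟩
    have : y₀ ∈ (Subtype.val ⁻¹' O : Set ↥(E ∩ B)) := by
      rw [hOq]
      exact hy₀
    exact this
  obtain ⟨x₂, ⟨hx₂O, hx₂B⟩, hx₂N⟩ := mem_closure_iff.mp y₀.2.1 (O ∩ B) (hO.inter hBo) hy₀O
  have hyp : HypAt d R p ν θ x₂ := by
    refine hypAt_of_unif (hO.inter hBo) ⟨hx₂O, hx₂B⟩ hm hb hmb ?_ isOpen_interior ⟨a₁, ha₁⟩ ?_
      (L := (q.2.2 : ℝ))
    · refine ne_top_of_le_ne_top hfin (measure_mono ?_)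
      intro x hx
      obtain ⟨hx', hxq⟩ := hO1 x hx
      exact ⟨⟨x, hx'⟩, hxq, rfl⟩
    · intro a ha y hy z hz
      obtain ⟨hy', hyq⟩ := hO1 y hy
      obtain ⟨hz', hzq⟩ := hO1 z hz
      exact (interior_subset ha : a ∈ A q).2 _ hyq _ hzq
  exact not_hypAt hθ hRo hR hx₂N.1 (subset_closure hx₂N) hyp

end Pool.Agent.HSIO
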