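import Pool.Agent.HS3.Defs
import Pool.Agent.Helper83.IO.Defs

/-!
# Hilbert-Smith, regularity only on invariant continua of points with infinite orbit: definitions
-/

set_option autoImplicit false

open Set MeasureTheory Metric Filter Topology
open scoped NNReal ENNReal

namespace Pool.Agent.HSIO

open Pool.Agent.Helper3.HS Pool.Agent.HS3 Pool.Agent.Helper83.IO

section pre

variable {V : Type*} [NormedAddCommGroup V] [NormedSpace ℝ V] [FiniteDimensional ℝ V]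
  [MeasurableSpace V] [BorelSpace V] {p : ℕ} [hp : Fact p.Prime]

/-- A wall system: an open set with disjoint translates and null frontier. -/
structure Wall (μ : Measure V) (D : PreDat V p) (P : Set V) : Prop where
  op : IsOpen P
  cl : closure P ⊆ D.U
  inv : ∀ b : ℤ_[p], ∀ z ∈ P, D.g (p * b) z ∈ P
  disj : ∀ j : ℕ, 0 < j → j < p → Disjoint (D.g (j : ℤ_[p]) '' closure P) (closure P)
  null : ∀ j : ℕ, j < p → μ (D.g (j : ℤ_[p]) '' frontier P) = 0

/-- The abstract hypothesis on the action: there are countably many small compact sets that meet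
all invariant continua of points with infinite orbit. -/
def IOHyp (D : PreDat V p) : Prop :=
  ∃ Z : ℕ → Set V, (∀ i, IsCompact (Z i)) ∧ (∀ i, Z i ⊆ D.U) ∧ (∀ i y t, Mv2 D y t (Z i)) ∧
    ∀ C : Set V, IsCompact C → IsConnected C → C ⊆ D.U → (∀ i, Disjoint C (Z i)) →
      (∀ a, ∀ x ∈ C, D.g a x ∈ C) →
      (∀ x ∈ C, ∀ k : ℕ, ∃ b, D.g ((p : ℤ_[p]) ^ k * b) x ≠ x) → False

end pre

section act

variable {X : Type*} {G : Type*} [Group G] [MulAction G X] {p : ℕ} [hp : Fact p.Prime]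

/-- The points of `R` with infinite orbit. -/
def InfOrb (R : Set X) (θ : Multiplicative ℤ_[p] →* G) : Set X :=
  {x | x ∈ R ∧ ∀ k : ℕ, ∃ a : ℤ_[p], θ (Multiplicative.ofAdd ((p : ℤ_[p]) ^ k * a)) • x ≠ x}

variable [MetricSpace X]

/-- The points `x` of the closed set `C` in the closure of `N` at which all maps of the coset
`a₀ + p ^ l ℤ_p` have order `b` along the scales `r j`, relative to `N`. -/
def PcS (θ : Multiplicative ℤ_[p] →* G) (r : ℕ → ℝ) (N : Set X) (a₀ : ℤ_[p]) (l : ℕ) (b m : ℝ)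
    (J : ℕ) : Set X :=
  {x | x ∈ closure N ∧ ∀ (a : ℤ_[p]) (j : ℕ), J ≤ j → ∀ z ∈ N, dist z x < r j →
    dist (θ (Multiplicative.ofAdd (a₀ + (p : ℤ_[p]) ^ l * a)) • z)
      (θ (Multiplicative.ofAdd (a₀ + (p : ℤ_[p]) ^ l * a)) • x) ≤ m * r j ^ b}

/-- The points `x` of the closed set `C` in the closure of `N` at which all maps of the coset
`a₀ + p ^ l ℤ_p` are `b`-Hoelder, relative to `N`. -/
def PcH (θ : Multiplicative ℤ_[p] →* G) (C N : Set X) (a₀ : ℤ_[p]) (l : ℕ) (b m : ℝ)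
    (J : ℕ) : Set X :=
  {x | x ∈ C ∧ x ∈ closure N ∧ ∀ a : ℤ_[p], ∀ z ∈ N, dist z x < 1 / ((J : ℝ) + 1) →
    dist (θ (Multiplicative.ofAdd (a₀ + (p : ℤ_[p]) ^ l * a)) • z)
      (θ (Multiplicative.ofAdd (a₀ + (p : ℤ_[p]) ^ l * a)) • x) ≤ m * dist z x ^ b}

/-- The map `f` is `b`-Hoelder at the point `x` relative to `N`, for some `b > (m - 1) / (n + 1)`. -/
def HolAt (n : ℕ) (m : ℝ) (N : Set X) (f : X → X) (x : X) : Prop :=
  ∃ b L : ℝ, (m - 1) / (n + 1) < b ∧ 0 < b ∧ ∀ᶠ z in 𝓝 x, z ∈ N → dist (f z) (f x) ≤ L * dist z x ^ b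

/-- The energy of the action near a point is small along suitable scales, relative to `N`. -/
def EnAt [MeasurableSpace X] [BorelSpace X] (d : ℕ) [MeasurableSpace ℤ_[p]] (ν : Measure ℤ_[p])
    (θ : Multiplicative ℤ_[p] →* G) (N W : Set X) : Prop :=
  ∀ ε : ℝ≥0∞, 0 < ε → ∃ h : ℝ, 0 < h ∧ h ≤ 1 ∧
    ∫⁻ a, ∫⁻ y in W, ediam ((fun z => θ (Multiplicative.ofAdd a) • z) '' (ball y h ∩ (W ∩ N))) ^
      (d + 2) ∂(μH[((d + 1 : ℕ) : ℝ)] : Measure X) ∂ν ≤ ε * ENNReal.ofReal (h ^ d)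

end act

end Pool.Agent.HSIO
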