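import Pool.Agent.HSIO.Defs
import Pool.Agent.HS3.FinMod

/-!
# Invariant level functions
-/

set_option autoImplicit false
set_option linter.unusedSectionVars false
set_option linter.unusedVariables false

open Set MeasureTheory Metric Filter Topology
open scoped NNReal ENNReal

namespace Pool.Agent.HSIO

open Pool.Agent.Helper3.HS Pool.Agent.HS3 Pool.Agent.Helper83.IO

variable {V : Type*} [NormedAddCommGroup V] [NormedSpace ℝ V] [FiniteDimensional ℝ V]
  [MeasurableSpace V] [BorelSpace V] {p : ℕ} [hp : Fact p.Prime]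

/-- Near a moved point there is a function, invariant under `p ℤ_p`, whose support is compact and
whose positive set has disjoint translates. -/
theorem exists_level (D : PreDat V p) {x₀ : V} (hx₀ : x₀ ∈ D.U) (hm : ∃ b, D.g b x₀ ≠ x₀) :
    ∃ (w : V → ℝ) (K : Set V), Continuous w ∧ (∀ a, ∀ x ∈ D.U, w (D.g (p * a) x) = w x) ∧
      w x₀ = 1 ∧ (∀ x, 0 ≤ w x) ∧ IsCompact K ∧ K ⊆ D.U ∧ (∀ x, 0 < w x → x ∈ K) ∧
      ∀ x, 0 < w x → ∀ a : ℤ_[p], ¬ (p : ℤ_[p]) ∣ a → w (D.g a x) ≤ 0 := by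
  classical
  have : ProperSpace V := FiniteDimensional.proper ℝ V
  let _ : MeasurableSpace ℤ_[p] := borel ℤ_[p]
  have : BorelSpace ℤ_[p] := ⟨rfl⟩
  set ν : Measure ℤ_[p] :=
    Measure.addHaarMeasure (⊤ : TopologicalSpace.PositiveCompacts ℤ_[p]) with hν
  have hprob : IsProbabilityMeasure ν := by
    constructor
    have := Measure.addHaarMeasure_self (K₀ := (⊤ : TopologicalSpace.PositiveCompacts ℤ_[p]))
    simpa using this
  set S : Set ℤ_[p] := {a : ℤ_[p] | (p : ℤ_[p]) ^ (0 + 1) ∣ a} with hS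
  have hSo : IsOpen S := isOpen_dvd (0 + 1)
  have hSmem : ∀ a : ℤ_[p], a ∈ S ↔ (p : ℤ_[p]) ∣ a := fun a => by
    rw [hS, mem_ofPred_eq, zero_add, pow_one]
  have hSc : IsCompact Sᶜ := hSo.isClosed_compl.isCompact
  have hm' : ∃ b : ℤ_[p], D.g ((p : ℤ_[p]) ^ 0 * b) x₀ ≠ x₀ := by simpa using hm
  have hgx : ∀ x ∈ D.U, Continuous (fun a : ℤ_[p] => D.g a x) := by
    intro x hx
    have h1 : Continuous (fun a : ℤ_[p] => ((a, x) : ℤ_[p] × V)) := by fun_prop
    exact D.hgj.comp_continuous h1 (fun a => ⟨mem_univ _, hx⟩)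
  -- the translates outside `S` stay away from `x₀`
  have hKc : IsCompact ((fun a : ℤ_[p] => D.g a x₀) '' Sᶜ) := hSc.image (hgx x₀ hx₀)
  have hKx : x₀ ∉ (fun a : ℤ_[p] => D.g a x₀) '' Sᶜ := by
    rintro ⟨a, ha, hax⟩
    exact moved_outside D hx₀ hm' ha hax
  obtain ⟨ρ, hρ, hρK⟩ : ∃ ρ : ℝ, 0 < ρ ∧ closedBall x₀ ρ ⊆
      D.U ∩ ((fun a : ℤ_[p] => D.g a x₀) '' Sᶜ)ᶜ := by
    have h1 : D.U ∩ ((fun a : ℤ_[p] => D.g a x₀) '' Sᶜ)ᶜ ∈ 𝓝 x₀ :=
      inter_mem (D.hU.mem_nhds hx₀) (hKc.isClosed.isOpen_compl.mem_nhds hKx)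
    obtain ⟨ρ, hρ, h⟩ := Metric.nhds_basis_closedBall.mem_iff.mp h1
    exact ⟨ρ, hρ, h⟩
  have hev : ∀ᶠ x in 𝓝 x₀, ∀ a ∈ Sᶜ, D.g a x ∉ closedBall x₀ ρ := by
    apply hSc.eventually_forall_of_forall_eventually
    intro a ha
    have h2 : ContinuousAt (fun q : V × ℤ_[p] => D.g q.2 q.1) (x₀, a) := by
      have h3 : ContinuousAt (fun q : ℤ_[p] × V => D.g q.1 q.2) (a, x₀) :=
        D.hgj.continuousAt ((isOpen_univ.prod D.hU).mem_nhds ⟨mem_univ _, hx₀⟩)
      exact ContinuousAt.comp (g := fun q : ℤ_[p] × V => D.g q.1 q.2)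
        (f := fun q : V × ℤ_[p] => (q.2, q.1)) (x := (x₀, a)) h3 (by fun_prop)
    have h3 : D.g a x₀ ∉ closedBall x₀ ρ := fun h => (hρK h).2 ⟨a, ha, rfl⟩
    exact h2.preimage_mem_nhds (isClosed_closedBall.isOpen_compl.mem_nhds h3)
  obtain ⟨ρ', hρ', hρρ, hball⟩ : ∃ ρ' : ℝ, 0 < ρ' ∧ ρ' ≤ ρ ∧ closedBall x₀ ρ' ⊆
      {x | ∀ a ∈ Sᶜ, D.g a x ∉ closedBall x₀ ρ} ∩ ball x₀ ρ := by
    obtain ⟨ρ₁, hρ₁, h⟩ := Metric.nhds_basis_closedBall.mem_iff.mp
      (inter_mem hev (ball_mem_nhds x₀ hρ))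
    exact ⟨min ρ₁ ρ, lt_min hρ₁ hρ, min_le_right _ _,
      (closedBall_subset_closedBall (min_le_left _ _)).trans h⟩
  have hρ'U : closedBall x₀ ρ' ⊆ D.U := fun x hx =>
    (hρK (ball_subset_closedBall (hball hx).2)).1
  -- the bump function
  set β : V → ℝ := fun x => max 0 (ρ' - dist x x₀) with hβ
  have hβc : Continuous β := by fun_prop
  have hβ0 : ∀ x, 0 ≤ β x := fun x => le_max_left _ _
  have hβpos : ∀ x, 0 < β x → x ∈ closedBall x₀ ρ' := by
    intro x hx
    rw [mem_closedBall]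
    by_contra hcon
    push Not at hcon
    have : β x = 0 := max_eq_left (by linarith)
    linarith
  set K : Set V := (fun q : ℤ_[p] × V => D.g q.1 q.2) '' (univ ×ˢ closedBall x₀ ρ') with hK
  have hKcomp : IsCompact K := by
    apply (isCompact_univ.prod (isCompact_closedBall x₀ ρ')).image_of_continuousOn
    exact D.hgj.mono (prod_mono Subset.rfl hρ'U)
  have hKU : K ⊆ D.U := by
    rintro _ ⟨⟨a, x⟩, ⟨-, hx⟩, rfl⟩
    exact D.hgU a x (hρ'U hx)
  have hKmem : ∀ x ∈ D.U, x ∉ K → ∀ a, β (D.g a x) = 0 := by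
    intro x hx hxK a
    by_contra h
    have h1 : 0 < β (D.g a x) := lt_of_le_of_ne (hβ0 _) (Ne.symm h)
    exact hxK ⟨(-a, D.g a x), ⟨mem_univ _, hβpos _ h1⟩, D.inv a hx⟩
  set f : V → ℤ_[p] → ℝ := fun x a => if x ∈ D.U then β (D.g (p * a) x) else 0 with hf
  have hfc : Continuous (Function.uncurry f) := by
    rw [continuous_iff_continuousAt]
    rintro ⟨x, a⟩
    by_cases hx : x ∈ D.U
    · have h1 : ContinuousAt (fun q : V × ℤ_[p] => β (D.g (p * q.2) q.1)) (x, a) := by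
        have h3 : ContinuousAt (fun q : ℤ_[p] × V => D.g q.1 q.2) ((p : ℤ_[p]) * a, x) :=
          D.hgj.continuousAt ((isOpen_univ.prod D.hU).mem_nhds ⟨mem_univ _, hx⟩)
        have h4 : ContinuousAt (fun q : V × ℤ_[p] => D.g (p * q.2) q.1) (x, a) :=
          ContinuousAt.comp (g := fun q : ℤ_[p] × V => D.g q.1 q.2)
            (f := fun q : V × ℤ_[p] => ((p : ℤ_[p]) * q.2, q.1)) (x := (x, a)) h3 (by fun_prop)
        exact hβc.continuousAt.comp h4
      apply h1.congr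
      filter_upwards [(D.hU.prod isOpen_univ).mem_nhds (⟨hx, mem_univ a⟩ : (x, a) ∈ D.U ×ˢ univ)]
        with q hq
      simp only [Function.uncurry, hf]
      rw [if_pos hq.1]
    · have hxK : x ∉ K := fun h => hx (hKU h)
      apply (continuousAt_const (y := (0 : ℝ))).congr
      filter_upwards [(hKcomp.isClosed.isOpen_compl.prod isOpen_univ).mem_nhds
        (⟨hxK, mem_univ a⟩ : (x, a) ∈ Kᶜ ×ˢ univ)] with q hq
      simp only [Function.uncurry, hf]
      split_ifs with h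
      · exact (hKmem q.1 h hq.1 _).symm
      · rfl
  have hfx : ∀ x, Continuous (f x) := fun x => hfc.comp (f := fun a : ℤ_[p] => (x, a)) (by fun_prop)
  have hint : ∀ x, Integrable (f x) ν := fun x =>
    (hfx x).integrable_of_hasCompactSupport (HasCompactSupport.of_compactSpace _)
  have hf0 : ∀ x a, 0 ≤ f x a := by
    intro x a
    simp only [hf]
    split_ifs
    · exact hβ0 _
    · exact le_rfl
  set I : V → ℝ := fun x => ∫ a, f x a ∂ν with hI
  have hIc : Continuous I := by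
    have h1 := continuous_parametric_integral_of_continuous (μ := ν) hfc isCompact_univ
    simpa only [Measure.restrict_univ] using h1
  have hI0 : ∀ x, 0 ≤ I x := fun x => integral_nonneg (hf0 x)
  have hIpos : ∀ x, 0 < I x → x ∈ D.U ∧ ∃ a, D.g (p * a) x ∈ closedBall x₀ ρ' := by
    intro x hx
    by_contra hcon
    have h1 : ∀ a, f x a = 0 := by
      intro a
      simp only [hf]
      split_ifs with hxU
      · by_contra h
        exact hcon ⟨hxU, a, hβpos _ (lt_of_le_of_ne (hβ0 _) (Ne.symm h))⟩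
      · rfl
    have h2 : I x = 0 := by simp [hI, h1]
    linarith
  have hIx₀ : 0 < I x₀ := by
    have h1 : 0 < f x₀ 0 := by
      simp only [hf, if_pos hx₀, mul_zero]
      rw [D.hg0 x₀ hx₀]
      simp only [hβ, dist_self, sub_zero]
      exact lt_max_of_lt_right hρ'
    exact (hfx x₀).integral_pos_of_hasCompactSupport_nonneg_nonzero
      (HasCompactSupport.of_compactSpace _) (hf0 x₀) h1.ne'
  have hIinv : ∀ b, ∀ x ∈ D.U, I (D.g (p * b) x) = I x := by
    intro b x hx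
    have hbU := D.hgU (p * b) x hx
    simp only [hI, hf, if_pos hx, if_pos hbU]
    have h1 : ∀ a, β (D.g (p * a) (D.g (p * b) x)) = β (D.g (p * (a + b)) x) := fun a => by
      rw [← D.hgadd _ _ x hx, mul_add]
    simp only [h1]
    exact integral_add_right_eq_self (fun a => β (D.g (p * a) x)) b
  refine ⟨fun x => I x / I x₀, K, hIc.div_const _, fun a x hx => by
    simp only; rw [hIinv a x hx], div_self hIx₀.ne', fun x => div_nonneg (hI0 x) hIx₀.le, hKcomp,
    hKU, ?_, ?_⟩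
  · intro x hx
    have h1 : 0 < I x := by
      rcases (div_pos_iff.1 hx) with h | h
      · exact h.1
      · exact absurd h.2 (not_lt.2 hIx₀.le)
    obtain ⟨hxU, a, ha⟩ := hIpos x h1
    exact ⟨(-(p * a), D.g (p * a) x), ⟨mem_univ _, ha⟩, D.inv _ hxU⟩
  · intro x hx a ha
    have h1 : 0 < I x := by
      rcases (div_pos_iff.1 hx) with h | h
      · exact h.1
      · exact absurd h.2 (not_lt.2 hIx₀.le)
    obtain ⟨hxU, b, hb⟩ := hIpos x h1
    by_contra hcon
    push Not at hcon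
    have h2 : 0 < I (D.g a x) := by
      rcases (div_pos_iff.1 hcon) with h | h
      · exact h.1
      · exact absurd h.2 (not_lt.2 hIx₀.le)
    obtain ⟨-, b', hb'⟩ := hIpos _ h2
    have h3 : D.g (p * b' + a - p * b) (D.g (p * b) x) = D.g (p * b') (D.g a x) := by
      rw [← D.hgadd _ _ x hxU, ← D.hgadd _ _ x hxU]
      congr 1
      ring
    have h4 : p * b' + a - p * b ∈ Sᶜ := by
      rw [mem_compl_iff, hSmem]
      intro hdvd
      apply ha
      have e1 : a = (p * b' + a - p * b) - p * (b' - b) := by ring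
      rw [e1]
      exact dvd_sub hdvd (dvd_mul_right _ _)
    have h5 := (hball hb).1 _ h4
    rw [h3] at h5
    exact h5 (closedBall_subset_closedBall hρρ hb')

end Pool.Agent.HSIO
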