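import Pool.Agent.HSIO.Defs
import Pool.Agent.Helper83.IO.Main

/-!
# Simultaneous perturbation for countably many compact sets
-/

set_option autoImplicit false
set_option linter.unusedSectionVars false

open Set MeasureTheory Metric Filter Topology
open scoped NNReal ENNReal BoundedContinuousFunction

namespace Pool.Agent.HSIO

open Pool.Agent.Helper3.HS Pool.Agent.HS3 Pool.Agent.Helper83.IO

variable {V : Type*} [NormedAddCommGroup V] [NormedSpace ℝ V] [FiniteDimensional ℝ V]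
  [MeasurableSpace V] [BorelSpace V] {μ : Measure V} [μ.IsAddHaarMeasure] {p : ℕ}
  [hp : Fact p.Prime]

namespace Sel

/-- The invariance of a tuple. -/
def Inv (D : PreDat V p) {M : ℕ} (Φ : V → V × (Fin M → ℝ)) : Prop :=
  (∀ a, ∀ x ∈ D.U, (Φ (D.g a x)).1 = (Φ x).1) ∧
    ∀ j a, ∀ x ∈ D.U, (Φ (D.g (p * a) x)).2 j = (Φ x).2 j

theorem Inv.add {D : PreDat V p} {M : ℕ} {Φ Ψ : V → V × (Fin M → ℝ)} (h1 : Inv D Φ)
    (h2 : Inv D Ψ) : Inv D (fun x => Φ x + Ψ x) := by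
  constructor
  · intro a x hx
    simp only [Prod.fst_add]
    rw [h1.1 a x hx, h2.1 a x hx]
  · intro j a x hx
    simp only [Prod.snd_add, Pi.add_apply]
    rw [h1.2 j a x hx, h2.2 j a x hx]

theorem Inv.smul {D : PreDat V p} {M : ℕ} {Φ : V → V × (Fin M → ℝ)} (h1 : Inv D Φ) (c : ℝ) :
    Inv D (fun x => c • Φ x) := by
  constructor
  · intro a x hx
    simp only [Prod.smul_fst]
    rw [h1.1 a x hx]
  · intro j a x hx
    simp only [Prod.smul_snd, Pi.smul_apply]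
    rw [h1.2 j a x hx]

/-- The space of perturbations. -/
def S (D : PreDat V p) (M : ℕ) (ε : ℝ) : Set (V →ᵇ V × (Fin M → ℝ)) :=
  {Φ | Inv D Φ ∧ ∀ x, ‖Φ x‖ ≤ ε}

theorem isClosed_S (D : PreDat V p) (M : ℕ) (ε : ℝ) : IsClosed (S D M ε) := by
  have hev : ∀ x : V, Continuous fun Φ : V →ᵇ V × (Fin M → ℝ) => Φ x := fun x =>
    continuous_eval_const x
  have : S D M ε = (⋂ a, ⋂ x : D.U, {Φ | (Φ (D.g a x)).1 = (Φ x).1}) ∩
      (⋂ j, ⋂ a, ⋂ x : D.U, {Φ | (Φ (D.g (p * a) x)).2 j = (Φ x).2 j}) ∩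
      ⋂ x, {Φ | ‖Φ x‖ ≤ ε} := by
    ext Φ
    simp only [S, Inv, mem_ofPred_eq, mem_inter_iff, mem_iInter, Subtype.forall]
  rw [this]
  refine (IsClosed.inter (isClosed_iInter fun a => isClosed_iInter fun x => isClosed_eq
    (continuous_fst.comp (hev _)) (continuous_fst.comp (hev _)))
    (isClosed_iInter fun j => isClosed_iInter fun a => isClosed_iInter fun x => isClosed_eq
    ((continuous_apply j).comp (continuous_snd.comp (hev _)))
    ((continuous_apply j).comp (continuous_snd.comp (hev _))))).inter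
    (isClosed_iInter fun x => isClosed_le (hev x).norm continuous_const)

/-- Criterion for density. -/
theorem dense_of (D : PreDat V p) (M : ℕ) {ε : ℝ} (hε : 0 < ε)
    (C : (V → V × (Fin M → ℝ)) → Prop)
    (h : ∀ Φ : V → V × (Fin M → ℝ), Continuous Φ → Inv D Φ → ∀ δ > 0,
      ∃ Ψ : V → V × (Fin M → ℝ), Continuous Ψ ∧ Inv D Ψ ∧ (∀ x, ‖Ψ x‖ ≤ δ) ∧
        C (fun x => Φ x + Ψ x)) : Dense {Φ : S D M ε | C Φ.1} := by
  rw [Metric.dense_iff]
  intro Φ r hr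
  set s : ℝ := min (1 / 2) (r / (4 * ε)) with hs
  have hs0 : 0 < s := lt_min (by norm_num) (by positivity)
  have hs1 : s ≤ 1 / 2 := min_le_left _ _
  have hs2 : s * ε ≤ r / 4 := by
    have h1 : s ≤ r / (4 * ε) := min_le_right _ _
    calc s * ε ≤ r / (4 * ε) * ε := by gcongr
      _ = r / 4 := by field_simp
  obtain ⟨Ψ, hΨ, hΨi, hΨb, hC⟩ := h (fun x => (1 - s) • Φ.1 x)
    (Φ.1.continuous.const_smul (1 - s)) (Φ.2.1.smul (1 - s)) (s * ε) (by positivity)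
  have hb : ∀ x, ‖(1 - s) • Φ.1 x + Ψ x‖ ≤ ε := by
    intro x
    have h1 := norm_add_le ((1 - s) • Φ.1 x) (Ψ x)
    have h2 := Φ.2.2 x
    have h3 := hΨb x
    rw [norm_smul, Real.norm_eq_abs, abs_of_nonneg (by linarith)] at h1
    have h4 : (1 - s) * ‖Φ.1 x‖ ≤ (1 - s) * ε := mul_le_mul_of_nonneg_left h2 (by linarith)
    linarith
  have hcont : Continuous fun x => (1 - s) • Φ.1 x + Ψ x := (Φ.1.continuous.const_smul (1 - s)).add hΨ
  set Θ : V →ᵇ V × (Fin M → ℝ) := BoundedContinuousFunction.ofNormedAddCommGroup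
    (fun x => (1 - s) • Φ.1 x + Ψ x) hcont ε hb with hΘ
  refine ⟨⟨Θ, (Φ.2.1.smul (1 - s)).add hΨi, hb⟩, ?_, hC⟩
  rw [mem_ball, Subtype.dist_eq]
  refine lt_of_le_of_lt ((BoundedContinuousFunction.dist_le (by positivity :
    (0 : ℝ) ≤ s * ε + s * ε)).2 fun x => ?_) (by linarith : s * ε + s * ε < r)
  rw [dist_eq_norm]
  change ‖(1 - s) • Φ.1 x + Ψ x - Φ.1 x‖ ≤ _
  have h5 : (1 - s) • Φ.1 x + Ψ x - Φ.1 x = -(s • Φ.1 x) + Ψ x := by
    module
  rw [h5]
  refine (norm_add_le _ _).trans (add_le_add ?_ (hΨb x))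
  rw [norm_neg, norm_smul, Real.norm_eq_abs, abs_of_pos hs0]
  exact mul_le_mul_of_nonneg_left (Φ.2.2 x) hs0.le

/-- An open condition. -/
theorem isOpen_ne (D : PreDat V p) (M : ℕ) {ε : ℝ} {W : Type*} [NormedAddCommGroup W]
    [NormedSpace ℝ W] (π : V × (Fin M → ℝ) →L[ℝ] W) {K : Set V} (hK : IsCompact K) {h : V → W}
    (hh : ContinuousOn h K) (z : W) : IsOpen {Φ : S D M ε | ∀ x ∈ K, h x + π (Φ.1 x) ≠ z} := by
  rw [Metric.isOpen_iff]
  intro Φ hΦ
  have hc : ContinuousOn (fun x => h x + π (Φ.1 x)) K :=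
    hh.add (π.continuous.comp Φ.1.continuous).continuousOn
  have himg := (hK.image_of_continuousOn hc).isClosed.isOpen_compl
  have hz : z ∈ ((fun x => h x + π (Φ.1 x)) '' K)ᶜ := by
    rintro ⟨x, hx, hxz⟩
    exact hΦ x hx hxz
  obtain ⟨r, hr, hball⟩ := Metric.isOpen_iff.1 himg z hz
  refine ⟨r / (‖π‖ + 1), by positivity, ?_⟩
  intro Φ' hΦ' x hx heq
  have h1 : dist (Φ'.1 x) (Φ.1 x) < r / (‖π‖ + 1) :=
    lt_of_le_of_lt (BoundedContinuousFunction.dist_coe_le_dist x) hΦ'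
  have h2 : h x + π (Φ.1 x) ∈ ball z r := by
    rw [mem_ball, ← heq, dist_eq_norm]
    have h3 : h x + π (Φ.1 x) - (h x + π (Φ'.1 x)) = π (Φ.1 x - Φ'.1 x) := by
      rw [map_sub]
      abel
    rw [h3]
    refine lt_of_le_of_lt (π.le_opNorm _) ?_
    rw [dist_comm, dist_eq_norm, lt_div_iff₀ (by positivity)] at h1
    nlinarith [norm_nonneg (Φ.1 x - Φ'.1 x), norm_nonneg π]
  exact hball h2 ⟨x, hx, rfl⟩

end Sel

open Sel

theorem exists_selection (D : PreDat V p) {F : V → V} (hF : ContinuousOn F (closure D.U))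
    (hFi : ∀ a, ∀ x ∈ D.U, F (D.g a x) = F x) {y : V} {M : ℕ} {w : Fin M → V → ℝ}
    (hw : ∀ j, ContinuousOn (w j) (closure D.U))
    (hwi : ∀ j a, ∀ x ∈ D.U, w j (D.g (p * a) x) = w j x) (t : ℝ) {Z : ℕ → Set V}
    (hZc : ∀ i, IsCompact (Z i)) (hZU : ∀ i, Z i ⊆ D.U) (hZ : ∀ i, Mv2 D y t (Z i))
    {L : Set V} (hL : IsCompact L) (hLU : L ⊆ D.U) {ε : ℝ} (hε : 0 < ε) :
    ∃ (ψ : V → V) (χ : Fin M → V → ℝ), Continuous ψ ∧ (∀ j, Continuous (χ j)) ∧
      (∀ a, ∀ x ∈ D.U, ψ (D.g a x) = ψ x) ∧ (∀ j a, ∀ x ∈ D.U, χ j (D.g (p * a) x) = χ j x) ∧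
      (∀ x, ‖ψ x‖ ≤ ε) ∧ (∀ j x, |χ j x| ≤ ε) ∧
      (∀ i j, ∀ x ∈ Z i, ¬ (F x + ψ x = y ∧ w j x + χ j x = t)) ∧
      ∀ j, ∀ i < p, μ (D.g (i : ℤ_[p]) '' {x | x ∈ L ∧ w j x + χ j x = t}) = 0 := by
  have : ProperSpace V := FiniteDimensional.proper ℝ V
  have hcomp : CompleteSpace (S D M ε) := (isClosed_S D M ε).completeSpace_coe
  -- the selection conditions
  set O : ℕ × Fin M → Set (S D M ε) := fun q =>
    {Φ | ∀ x ∈ Z q.1, ¬ (F x + (Φ.1 x).1 = y ∧ w q.2 x + (Φ.1 x).2 q.2 = t)} with hO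
  have hOo : ∀ q, IsOpen (O q) := by
    intro q
    set π : V × (Fin M → ℝ) →L[ℝ] V × ℝ := (ContinuousLinearMap.fst ℝ V (Fin M → ℝ)).prod
      ((ContinuousLinearMap.proj q.2).comp (ContinuousLinearMap.snd ℝ V (Fin M → ℝ))) with hπ
    have hπa : ∀ z : V × (Fin M → ℝ), π z = (z.1, z.2 q.2) := fun z => rfl
    have h1 := isOpen_ne D M (ε := ε) π (hZc q.1) (h := fun x => (F x, w q.2 x))
      (((hF.mono ((hZU q.1).trans subset_closure)).prodMk
        ((hw q.2).mono ((hZU q.1).trans subset_closure)))) (y, t)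
    convert h1 using 1
    ext Φ
    simp only [hO, mem_ofPred_eq, hπa, Prod.mk_add_mk, ne_eq, Prod.mk.injEq]
  have hOd : ∀ q, Dense (O q) := by
    intro q
    apply dense_of D M hε (fun Φ => ∀ x ∈ Z q.1, ¬ (F x + (Φ x).1 = y ∧ w q.2 x + (Φ x).2 q.2 = t))
    intro Φ hΦ hΦi δ hδ
    obtain ⟨ψ, χ, h1, h2, h3, h4, h5, h6, h7⟩ := hZ q.1 (fun x => F x + (Φ x).1)
      (fun x => w q.2 x + (Φ x).2 q.2) (hF.add (continuous_fst.comp hΦ).continuousOn)
      ((hw q.2).add ((continuous_apply q.2).comp (continuous_snd.comp hΦ)).continuousOn)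
      (fun a x hx => by simp only [hFi a x hx, hΦi.1 a x hx])
      (fun a x hx => by simp only [hwi q.2 a x hx, hΦi.2 q.2 a x hx]) δ hδ
    refine ⟨fun x => (ψ x, Pi.single q.2 (χ x)), ?_, ?_, ?_, ?_⟩
    · refine h1.prodMk ?_
      exact (continuous_single q.2).comp h2
    · constructor
      · intro a x hx
        exact h3 a x hx
      · intro j a x hx
        simp only
        rw [h4 a x hx]
    · intro x
      rw [Prod.norm_def]
      apply max_le (h5 x)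
      simp only
      rw [pi_norm_le_iff_of_nonneg hδ.le]
      intro j
      by_cases hj : j = q.2
      · rw [hj, Pi.single_eq_same]
        exact h6 x
      · rw [Pi.single_eq_of_ne hj, norm_zero]
        exact hδ.le
    · intro x hx
      have h8 := h7 x hx
      simp only [Prod.fst_add, Prod.snd_add, Pi.add_apply, Pi.single_eq_same, ← add_assoc]
      exact h8
  -- the null conditions
  set N : Fin M × Fin p × ℕ → Set (S D M ε) := fun q =>
    {Φ | μ (D.g ((q.2.1 : ℕ) : ℤ_[p]) '' {x | x ∈ L ∧ w q.1 x + (Φ.1 x).2 q.1 = t}) <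
      ((q.2.2 : ℝ≥0∞) + 1)⁻¹} with hN
  have hwL : ∀ j, ContinuousOn (w j) L := fun j => (hw j).mono (hLU.trans subset_closure)
  have hNo : ∀ q, IsOpen (N q) := by
    intro q
    rw [isOpen_iff_mem_nhds]
    intro Φ hΦ
    obtain ⟨B, hBsub, hBo, hB⟩ := Set.exists_isOpen_lt_of_lt _ _ hΦ
    set O' : Set V := D.g ((q.2.1 : ℕ) : ℤ_[p]) ⁻¹' B with hO'
    have hO'o : IsOpen O' := hBo.preimage (D.hg _)
    have hK : IsCompact (L \ O') := hL.diff hO'o
    set π : V × (Fin M → ℝ) →L[ℝ] ℝ :=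
      (ContinuousLinearMap.proj q.1).comp (ContinuousLinearMap.snd ℝ V (Fin M → ℝ)) with hπ
    have hπa : ∀ z : V × (Fin M → ℝ), π z = z.2 q.1 := fun z => rfl
    have h1 := isOpen_ne D M (ε := ε) π hK (h := w q.1) ((hwL q.1).mono sdiff_subset) t
    refine mem_of_superset (h1.mem_nhds ?_) ?_
    · rintro x ⟨hxL, hxO⟩ heq
      apply hxO
      apply hBsub
      exact ⟨x, ⟨hxL, heq⟩, rfl⟩
    · intro Φ' hΦ'
      refine lt_of_le_of_lt (measure_mono ?_) hB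
      rintro _ ⟨x, ⟨hxL, hxt⟩, rfl⟩
      by_contra hxB
      exact hΦ' x ⟨hxL, hxB⟩ hxt
  have hNd : ∀ q, Dense (N q) := by
    intro q
    apply dense_of D M hε (fun Φ => μ (D.g ((q.2.1 : ℕ) : ℤ_[p]) ''
      {x | x ∈ L ∧ w q.1 x + (Φ x).2 q.1 = t}) < ((q.2.2 : ℝ≥0∞) + 1)⁻¹)
    intro Φ hΦ hΦi δ hδ
    set i : ℤ_[p] := ((q.2.1 : ℕ) : ℤ_[p]) with hi
    have hLi : IsCompact (D.g i '' L) := hL.image (D.hg i)
    have hLiU : MapsTo (D.g (-i)) (D.g i '' L) L := by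
      rintro _ ⟨x, hx, rfl⟩
      rw [D.inv i (hLU hx)]
      exact hx
    have hWc : ContinuousOn (fun z => w q.1 (D.g (-i) z) + (Φ (D.g (-i) z)).2 q.1) (D.g i '' L) := by
      apply ContinuousOn.add
      · exact (hwL q.1).comp (D.hg (-i)).continuousOn hLiU
      · exact ((continuous_apply q.1).comp (continuous_snd.comp
          (hΦ.comp (D.hg (-i))))).continuousOn
    obtain ⟨s, hs, hs0⟩ := exists_null_shift μ hLi hWc t hδ
    refine ⟨fun _ => (0, Pi.single q.1 s), continuous_const, ⟨fun _ _ _ => rfl,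
      fun _ _ _ _ => rfl⟩, ?_, ?_⟩
    · intro x
      rw [Prod.norm_def]
      apply max_le
      · simp only [norm_zero]
        exact hδ.le
      simp only
      rw [pi_norm_le_iff_of_nonneg hδ.le]
      intro j
      by_cases hj : j = q.1
      · rw [hj, Pi.single_eq_same]
        exact hs
      · rw [Pi.single_eq_of_ne hj, norm_zero]
        exact hδ.le
    · have h8 : μ (D.g i '' {x | x ∈ L ∧ w q.1 x + (Φ x + ((0 : V), Pi.single q.1 s)).2 q.1 = t}) =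
          0 := by
        refine measure_mono_null ?_ hs0
        rintro _ ⟨x, ⟨hxL, hxt⟩, rfl⟩
        refine ⟨⟨x, hxL, rfl⟩, ?_⟩
        rw [D.inv i (hLU hxL)]
        simp only [Prod.snd_add, Pi.add_apply, Pi.single_eq_same, ← add_assoc] at hxt
        exact hxt
      change μ (D.g i '' {x | x ∈ L ∧ w q.1 x + (Φ x + ((0 : V), Pi.single q.1 s)).2 q.1 = t}) < _
      rw [h8]
      simp
  -- Baire
  have hne : Nonempty (S D M ε) := by
    refine ⟨⟨0, ⟨?_, ?_⟩, ?_⟩⟩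
    · intro a x _
      rfl
    · intro j a x _
      rfl
    · intro x
      simp only [BoundedContinuousFunction.coe_zero, Pi.zero_apply, norm_zero]
      exact hε.le
  have hd : Dense (⋂ q : (ℕ × Fin M) ⊕ (Fin M × Fin p × ℕ), Sum.elim O N q) := by
    apply dense_iInter_of_isOpen
    · rintro (q | q)
      · exact hOo q
      · exact hNo q
    · rintro (q | q)
      · exact hOd q
      · exact hNd q
  obtain ⟨Φ, hΦ⟩ := hd.nonempty
  rw [mem_iInter] at hΦ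
  refine ⟨fun x => (Φ.1 x).1, fun j x => (Φ.1 x).2 j, continuous_fst.comp Φ.1.continuous,
    fun j => (continuous_apply j).comp (continuous_snd.comp Φ.1.continuous), Φ.2.1.1, Φ.2.1.2,
    fun x => (norm_fst_le _).trans (Φ.2.2 x), fun j x => ?_, ?_, ?_⟩
  · exact (norm_le_pi_norm (Φ.1 x).2 j).trans ((norm_snd_le _).trans (Φ.2.2 x))
  · intro i j x hx
    exact hΦ (Sum.inl (i, j)) x hx
  · intro j i hi
    have h1 : ∀ m : ℕ, μ (D.g (i : ℤ_[p]) '' {x | x ∈ L ∧ w j x + (Φ.1 x).2 j = t}) <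
        ((m : ℝ≥0∞) + 1)⁻¹ := fun m => hΦ (Sum.inr (j, ⟨i, hi⟩, m))
    by_contra hne
    obtain ⟨m, hm⟩ := ENNReal.exists_inv_nat_lt hne
    have h2 := h1 m
    have h3 : ((m : ℝ≥0∞) + 1)⁻¹ ≤ (m : ℝ≥0∞)⁻¹ := ENNReal.inv_le_inv.2 le_self_add
    exact absurd (lt_of_lt_of_le h2 h3) (not_lt.2 hm.le)

end Pool.Agent.HSIO
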