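import Pool.Agent.HSIO.Core
import Pool.Agent.HSIO.Level
import Pool.Agent.HSIO.Sel

/-!
# The degree in a chart
-/

set_option autoImplicit false
set_option linter.unusedSectionVars false
set_option linter.unusedVariables false

open Set MeasureTheory Metric Filter Topology
open scoped NNReal ENNReal

namespace Pool.Agent.HSIO

open Pool.Agent.Helper3.HS Pool.Agent.HS3 Pool.Agent.Helper83.IO

variable {d : ℕ} {X : Type*} [MetricSpace X] {G : Type*} [Group G] [TopologicalSpace G]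
  [MulAction G X] [ContinuousSMul G X] {p : ℕ} [hp : Fact p.Prime]
  {e : OpenPartialHomeomorph X (Fin (d + 1) → ℝ)} {θ : Multiplicative ℤ_[p] →* G}
  {c : Fin (d + 1) → ℝ} {σ : ℝ} (hθ : Continuous θ) (hσ : 0 < σ) (hB : closedBall c σ ⊆ e.target)
  (hsrc : ∀ a : ℤ_[p], ∀ u ∈ closedBall c σ, θ (Multiplicative.ofAdd a) • e.symm u ∈ e.source)

/-- **The degree is divisible by `p`** over a value that is not taken at the fixed points, if
countably many small compact sets meet all invariant continua of points with infinite orbit. -/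
theorem deg_dvd_chart (hyp : IOHyp (cpre hθ hσ hB hsrc))
    {F : (Fin (d + 1) → ℝ) → (Fin (d + 1) → ℝ)} (hF : Continuous F)
    (hFT : ∀ a, ∀ u ∈ invSet e θ c σ, F (act e θ a u) = F u) {y : Fin (d + 1) → ℝ}
    (hmv : ∀ u ∈ invSet e θ c σ, F u = y → ∃ a, act e θ a u ≠ u)
    {k : ℝ} (hk : HasDeg volume (invSet e θ c σ) F y k) : ∃ m : ℤ, k = p * m := by
  classical
  set D := cpre hθ hσ hB hsrc with hD
  have hDU : D.U = invSet e θ c σ := rfl
  have hkne := HasDeg.ne volume hk
  set U := invSet e θ c σ with hU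
  have hUo : IsOpen U := invSet_isOpen hθ hB hsrc
  have hUQ : U ⊆ ball c σ := fun u hu => hu.1
  have hUc : U ⊆ closedBall c σ := hUQ.trans ball_subset_closedBall
  have hUb : Bornology.IsBounded U := isBounded_ball.subset hUQ
  have hclU : IsCompact (closure U) := hUb.isCompact_closure
  have hgact : ∀ a, ∀ x ∈ U, D.g a x = act e θ a x := fun a x hx =>
    cpre_g hθ hσ hB hsrc (hUc hx) a
  have hFinv : ∀ a, ∀ x ∈ D.U, F (D.g a x) = F x := by
    intro a x hx
    rw [hgact a x hx]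
    exact hFT a x hx
  -- the gap
  set Bd : Set (Fin (d + 1) → ℝ) := closure U ∩ (frontier U ∪ {x | ∀ a, D.g a x = x}) with hBd
  have hBdc : IsCompact Bd := by
    apply hclU.inter_right
    apply isClosed_frontier.union
    have h1 : {x | ∀ a, D.g a x = x} = ⋂ a, {x | D.g a x = x} := by
      ext x
      simp
    rw [h1]
    exact isClosed_iInter fun a => isClosed_eq (D.hg a) continuous_id
  obtain ⟨r, hr, hgap⟩ := exists_gap hBdc hF.continuousOn (y := y) (by
    rintro x ⟨hx, hx'⟩ heq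
    by_cases hxU : x ∈ U
    · rcases hx' with h | h
      · exact hkne x h heq
      · obtain ⟨a, ha⟩ := hmv x hxU heq
        apply ha
        rw [← hgact a x hxU]
        exact h a
    · exact hkne x (by rw [hUo.frontier_eq]; exact ⟨hx, hxU⟩) heq)
  -- the compact set
  set L : Set (Fin (d + 1) → ℝ) := {x | x ∈ closure U ∧ dist (F x) y ≤ r} with hL
  have hLc : IsCompact L := by
    have h1 : L = closure U ∩ (fun x => dist (F x) y) ⁻¹' Iic r := rfl
    rw [h1]
    exact hclU.inter_right (isClosed_Iic.preimage (hF.dist continuous_const))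
  have hLnot : ∀ x ∈ L, x ∉ Bd := by
    intro x hx hxB
    have h1 := hgap x hxB
    have h2 := hx.2
    linarith
  have hLU : L ⊆ U := by
    intro x hx
    by_contra hxU
    exact hLnot x hx ⟨hx.1, Or.inl (by rw [hUo.frontier_eq]; exact ⟨hx.1, hxU⟩)⟩
  have hLm : ∀ x ∈ L, ∃ b, D.g b x ≠ x := by
    intro x hx
    by_contra hcon
    push Not at hcon
    exact hLnot x hx ⟨hx.1, Or.inr hcon⟩
  -- the level functions
  have hlev := fun (x : Fin (d + 1) → ℝ) (hx : x ∈ L) => exists_level D (hLU hx) (hLm x hx)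
  choose! w K hwc hwi hw1 hw0 hKc hKU hwK hwd using hlev
  obtain ⟨t, htL, ht⟩ := hLc.elim_nhds_subcover (fun x => {z | 3 / 4 < w x z}) (fun x hx => by
    apply (hwc x hx).continuousAt.preimage_mem_nhds
    apply Ioi_mem_nhds
    rw [hw1 x hx]
    norm_num)
  set M := t.card with hM
  let xs : Fin M → (Fin (d + 1) → ℝ) := fun j => (t.equivFin.symm j : Fin (d + 1) → ℝ)
  have hxsL : ∀ j, xs j ∈ L := fun j => htL _ (t.equivFin.symm j).2
  have hxs : ∀ x ∈ L, ∃ j, 3 / 4 < w (xs j) x := by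
    intro x hx
    obtain ⟨z, hz, hzx⟩ := mem_iUnion₂.1 (ht hx)
    refine ⟨t.equivFin ⟨z, hz⟩, ?_⟩
    simp only [xs, Equiv.symm_apply_apply]
    exact hzx
  -- the big compact set
  set L' : Set (Fin (d + 1) → ℝ) := ⋃ j : Fin M, K (xs j) with hL'
  have hL'c : IsCompact L' := isCompact_iUnion fun j => hKc _ (hxsL j)
  have hL'U : L' ⊆ D.U := iUnion_subset fun j => hKU _ (hxsL j)
  -- the small sets
  obtain ⟨Z, hZc, hZU, hZm, hno⟩ := hyp
  let Z' : ℕ ⊕ (ℕ × ℕ) → Set (Fin (d + 1) → ℝ) := fun s => match s with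
    | Sum.inl k => {x | x ∈ L' ∧ ∀ b : ℤ_[p], D.g ((p : ℤ_[p]) ^ k * b) x = x}
    | Sum.inr q => D.g (q.2 : ℤ_[p]) '' Z q.1
  obtain ⟨enc, henc⟩ : ∃ enc : ℕ → ℕ ⊕ (ℕ × ℕ), Function.Surjective enc := exists_surjective_nat _
  have hfixc : ∀ k : ℕ, IsCompact {x | x ∈ L' ∧ ∀ b : ℤ_[p], D.g ((p : ℤ_[p]) ^ k * b) x = x} := by
    intro k
    have h1 : {x | x ∈ L' ∧ ∀ b : ℤ_[p], D.g ((p : ℤ_[p]) ^ k * b) x = x} =
        L' ∩ ⋂ b : ℤ_[p], {x | D.g ((p : ℤ_[p]) ^ k * b) x = x} := by
      ext x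
      simp
    rw [h1]
    exact hL'c.inter_right (isClosed_iInter fun b => isClosed_eq (D.hg _) continuous_id)
  have hZ'c : ∀ s, IsCompact (Z' s) := by
    rintro (k | q)
    · exact hfixc k
    · exact (hZc q.1).image (D.hg _)
  have hZ'U : ∀ s, Z' s ⊆ D.U := by
    rintro (k | q)
    · exact fun x hx => hL'U hx.1
    · rintro _ ⟨x, hx, rfl⟩
      exact D.hgU _ x (hZU q.1 hx)
  have hZ'm : ∀ s, Mv2 D y (1 / 2) (Z' s) := by
    rintro (k | q)
    · exact mv2_fin D k (hfixc k) (fun x hx => hL'U hx.1) (fun x hx => hx.2) y (1 / 2)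
    · exact Mv2.image (hZU q.1) (hZm q.1 y (1 / 2)) _
  -- the selection
  have hcl : closure D.U = closure U := rfl
  set ε : ℝ := min r (1 / 8) with hε
  have hε0 : 0 < ε := lt_min hr (by norm_num)
  obtain ⟨ψ, χ, hψc, hχc, hψi, hχi, hψb, hχb, hsel, hnull⟩ := exists_selection
    (μ := (volume : Measure (Fin (d + 1) → ℝ))) D (F := F) hF.continuousOn hFinv (y := y)
    (w := fun j => w (xs j)) (fun j => (hwc _ (hxsL j)).continuousOn)
    (fun j a x hx => hwi _ (hxsL j) a x hx) (1 / 2) (Z := fun n => Z' (enc n))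
    (fun n => hZ'c _) (fun n => hZ'U _) (fun n => hZ'm _) hL'c hL'U hε0
  set F' : (Fin (d + 1) → ℝ) → (Fin (d + 1) → ℝ) := fun x => F x + ψ x with hF'
  have hF'c : Continuous F' := hF.add hψc
  have hF'T : ∀ a, ∀ u ∈ U, F' (act e θ a u) = F' u := by
    intro a u hu
    rw [hF']
    simp only
    rw [hFT a u hu, ← hgact a u hu, hψi a u hu]
  have hF'L : ∀ x ∈ U, F' x = y → x ∈ L := by
    intro x hx heq
    refine ⟨subset_closure hx, ?_⟩
    rw [← heq, hF']
    simp only
    rw [dist_self_add_right]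
    exact (hψb x).trans (min_le_left _ _)
  -- the degree
  have hk' : HasDeg volume U F' y k := by
    apply HasDeg.homotopy volume hUo hUb hF.continuousOn hF'c.continuousOn hk
    intro x hx s hs heq
    have h1 := hgap x ⟨frontier_subset_closure hx, Or.inl hx⟩
    have h2 : F x - y = -(s • ψ x) := by
      have e1 : (1 - s) • (F x - y) + s • (F' x - y) = (F x - y) + s • ψ x := by
        rw [hF']
        module
      rw [e1] at heq
      exact eq_neg_of_add_eq_zero_left heq
    have h3 : dist (F x) y ≤ r := by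
      rw [dist_eq_norm, h2, norm_neg, norm_smul, Real.norm_of_nonneg hs.1]
      calc s * ‖ψ x‖ ≤ 1 * r := mul_le_mul hs.2 ((hψb x).trans (min_le_left _ _))
            (norm_nonneg _) zero_le_one
        _ = r := one_mul r
    linarith
  -- the walls
  let v : Fin M → (Fin (d + 1) → ℝ) → ℝ := fun j x => w (xs j) x + χ j x
  have hvc : ∀ j, Continuous (v j) := fun j => (hwc _ (hxsL j)).add (hχc j)
  have hvb : ∀ j x, |v j x - w (xs j) x| ≤ 1 / 8 := by
    intro j x
    simp only [v, add_sub_cancel_left]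
    exact (hχb j x).trans (min_le_right _ _)
  have hvpos : ∀ j x, 1 / 2 ≤ v j x → 0 < w (xs j) x := by
    intro j x hx
    have := (abs_le.1 (hvb j x)).2
    linarith
  have hvK : ∀ j x, 1 / 2 ≤ v j x → x ∈ K (xs j) := fun j x hx =>
    hwK _ (hxsL j) x (hvpos j x hx)
  let Q : Fin M → Set (Fin (d + 1) → ℝ) := fun j => {x | 1 / 2 < v j x}
  have hQo : ∀ j, IsOpen (Q j) := fun j => isOpen_Ioi.preimage (hvc j)
  have hQcl : ∀ j, closure (Q j) ⊆ {x | 1 / 2 ≤ v j x} := fun j =>
    closure_minimal (fun x hx => le_of_lt (show (1 / 2 : ℝ) < v j x from hx))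
      (isClosed_Ici.preimage (hvc j))
  have hQU : ∀ j, closure (Q j) ⊆ D.U := fun j x hx =>
    hKU _ (hxsL j) (hvK j x (hQcl j hx))
  have hvi : ∀ j a, ∀ x ∈ D.U, v j (D.g (p * a) x) = v j x := by
    intro j a x hx
    simp only [v]
    rw [hwi _ (hxsL j) a x hx, hχi j a x hx]
  have hQfr : ∀ j, frontier (Q j) ⊆ {x | x ∈ L' ∧ v j x = 1 / 2} := by
    intro j x hx
    rw [(hQo j).frontier_eq] at hx
    have h1 := hQcl j hx.1
    refine ⟨mem_iUnion.2 ⟨j, hvK j x h1⟩, le_antisymm ?_ h1⟩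
    by_contra hcon
    push Not at hcon
    exact hx.2 hcon
  have hWall : ∀ j, Wall volume D (Q j) := by
    intro j
    refine ⟨hQo j, hQU j, ?_, ?_, ?_⟩
    · intro b z hz
      have hzU : z ∈ D.U := hQU j (subset_closure hz)
      change 1 / 2 < v j (D.g (p * b) z)
      rw [hvi j b z hzU]
      exact hz
    · intro i hi0 hip
      rw [Set.disjoint_left]
      rintro _ ⟨z, hz, rfl⟩ hz'
      have h1 := hvpos j z (hQcl j hz)
      have h2 := hvpos j _ (hQcl j hz')
      have h3 := hwd _ (hxsL j) z h1 (i : ℤ_[p]) (by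
        intro hdvd
        have h4 : (p : ℤ_[p]) ∣ ((i : ℤ) : ℤ_[p]) := by exact_mod_cast hdvd
        have h5 : ‖((i : ℤ) : ℤ_[p])‖ < 1 := by
          rw [PadicInt.norm_lt_one_iff_dvd]
          exact h4
        rw [PadicInt.norm_int_lt_one_iff_dvd] at h5
        have h6 : (p : ℕ) ∣ i := by exact_mod_cast h5
        exact absurd (Nat.le_of_dvd hi0 h6) (not_le.2 hip))
      linarith
    · intro i hi
      apply measure_mono_null (image_mono (hQfr j)) (hnull j i hi)
  -- conclusion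
  let P : ℕ → Set (Fin (d + 1) → ℝ) := fun i => if h : i < M then Q ⟨i, h⟩ else ∅
  apply core_chart_comp hθ hσ hB hsrc hF'c hF'T (y := y) (M := M) (P := P)
  · intro i hi
    simp only [P, dif_pos hi]
    exact hWall _
  · intro x hx heq
    obtain ⟨j, hj⟩ := hxs x (hF'L x hx heq)
    refine ⟨j, j.2, ?_⟩
    simp only [P, dif_pos j.2, Fin.eta]
    change 1 / 2 < v j x
    have := (abs_le.1 (hvb j x)).1
    linarith
  · intro C hCc hCconn hCU hCy hCfr hCinv
    apply hno C hCc hCconn hCU ?_ hCinv ?_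
    · intro i
      rw [Set.disjoint_left]
      intro x hxC hxZ
      obtain ⟨l, hl, j, hj, hfr⟩ := hCfr x hxC
      simp only [P, dif_pos hl] at hfr
      obtain ⟨n, hn⟩ := henc (Sum.inr (i, j))
      refine hsel n ⟨l, hl⟩ (D.g (j : ℤ_[p]) x) ?_ ⟨?_, (hQfr _ hfr).2⟩
      · change D.g (j : ℤ_[p]) x ∈ Z' (enc n)
        rw [hn]
        exact ⟨x, hxZ, rfl⟩
      · exact hCy _ (hCinv _ x hxC)
    · intro x hxC k
      by_contra hcon
      push Not at hcon
      obtain ⟨l, hl, j, hj, hfr⟩ := hCfr x hxC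
      simp only [P, dif_pos hl] at hfr
      obtain ⟨n, hn⟩ := henc (Sum.inl k)
      refine hsel n ⟨l, hl⟩ (D.g (j : ℤ_[p]) x) ?_ ⟨?_, (hQfr _ hfr).2⟩
      · change D.g (j : ℤ_[p]) x ∈ Z' (enc n)
        rw [hn]
        refine ⟨(hQfr _ hfr).1, fun b => ?_⟩
        have hxU : x ∈ D.U := hCU hxC
        rw [← D.hgadd _ _ x hxU, add_comm ((p : ℤ_[p]) ^ k * b), D.hgadd _ _ x hxU, hcon b]
      · exact hCy _ (hCinv _ x hxC)
  · exact hk'

end Pool.Agent.HSIO
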