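import Pool.Agent.HSIO.Hyp
import Pool.Agent.Helper25.IO.Box
import Pool.Agent.Helper83.IO.Main

/-!
# From countably many closed pieces with small slices to the abstract hypothesis
-/

set_option autoImplicit false
set_option linter.unusedSectionVars false
set_option linter.unusedVariables false

open Set MeasureTheory Metric Filter Topology TopologicalSpace
open scoped NNReal ENNReal

namespace Pool.Agent.HSIO

open Pool.Agent.Helper3.HS Pool.Agent.HS3 Pool.Agent.Helper83.IO Pool.Agent.Helper25.IO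

variable {d : ℕ} {X : Type*} [MetricSpace X] {p : ℕ} [hp : Fact p.Prime]

/-- A property that holds at almost all levels holds at the levels of a countable dense set. -/
theorem exists_dense_of_ae {P : ℝ → Prop} (h : ∀ᵐ s : ℝ, P s) :
    ∃ T : Set ℝ, T.Countable ∧ Dense T ∧ ∀ s ∈ T, P s := by
  have h1 : Dense {s | P s} := Measure.dense_of_ae h
  obtain ⟨T, hT, hTc, hTd⟩ := h1.exists_countable_dense_subset
  exact ⟨T, hTc, hTd, hT⟩

/-- slices are compact -/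
theorem isCompact_slice {e : OpenPartialHomeomorph X (Fin (d + 1) → ℝ)} {L : Set (Fin (d + 1) → ℝ)}
    (hL : IsCompact L) (hLt : L ⊆ e.target) {Q : Set X} (hQ : IsClosed Q) (i : Fin (d + 1)) (s : ℝ) :
    IsCompact {v ∈ L | e.symm v ∈ Q ∧ v i = s} := by
  have h3 : IsClosed {v ∈ L | e.symm v ∈ Q} :=
    (e.symm.continuousOn.mono hLt).preimage_isClosed_of_isClosed hL.isClosed hQ
  have h4 : {v ∈ L | e.symm v ∈ Q ∧ v i = s} = {v ∈ L | e.symm v ∈ Q} ∩ {v | v i = s} := by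
    ext v
    simp only [mem_ofPred_eq, mem_inter_iff, and_assoc]
  rw [h4]
  have h5 : IsClosed ({v ∈ L | e.symm v ∈ Q} ∩ {v : Fin (d + 1) → ℝ | v i = s}) :=
    h3.inter (isClosed_eq (continuous_apply i) continuous_const)
  exact hL.of_isClosed_subset h5 fun v hv => hv.1.1

/-- **The abstract hypothesis from countably many pieces.** `𝒬` is a countable family of closed sets. In each invariant
continuum of points with infinite orbit there is a point near which the continuum is contained in one member of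
`𝒬`, all compact parts of which have small slices at almost all levels. -/
theorem ioHyp_of_family (D : PreDat (Fin (d + 1) → ℝ) p) {e : OpenPartialHomeomorph X (Fin (d + 1) → ℝ)}
    (hUt : closure D.U ⊆ e.target) {𝒬 : Set (Set X)} (h𝒬 : 𝒬.Countable) (hcl : ∀ Q ∈ 𝒬, IsClosed Q)
    (hlast : ∀ C : Set (Fin (d + 1) → ℝ), IsCompact C → IsConnected C → C ⊆ D.U →
      (∀ a, ∀ x ∈ C, D.g a x ∈ C) → (∀ x ∈ C, ∀ k : ℕ, ∃ b, D.g ((p : ℤ_[p]) ^ k * b) x ≠ x) →
      ∃ u ∈ C, ∃ Q ∈ 𝒬, ∃ O₁ ∈ 𝓝 u, (∀ v ∈ C ∩ O₁, e.symm v ∈ Q) ∧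
        ∀ L : Set (Fin (d + 1) → ℝ), IsCompact L → L ⊆ O₁ ∩ D.U → ∀ i : Fin (d + 1),
          ∀ᵐ s : ℝ, ∀ y t, Mv2 D y t {v ∈ L | e.symm v ∈ Q ∧ v i = s}) : IOHyp D := by
  classical
  set B := countableBasis (Fin (d + 1) → ℝ) with hB
  have hBb : IsTopologicalBasis B := isBasis_countableBasis _
  have hBc : B.Countable := countable_countableBasis _
  -- the levels
  let good : Set (Fin (d + 1) → ℝ) → Set X → Fin (d + 1) → Prop := fun O Q i =>
    ∀ᵐ s : ℝ, ∀ y t, Mv2 D y t {v ∈ closure O | e.symm v ∈ Q ∧ v i = s}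
  have hT : ∀ (O : Set (Fin (d + 1) → ℝ)) (Q : Set X) (i : Fin (d + 1)), ∃ T : Set ℝ, T.Countable ∧
      (good O Q i → Dense T ∧ ∀ s ∈ T, ∀ y t, Mv2 D y t {v ∈ closure O | e.symm v ∈ Q ∧ v i = s}) := by
    intro O Q i
    by_cases h : good O Q i
    · obtain ⟨T, h1, h2, h3⟩ := exists_dense_of_ae h
      exact ⟨T, h1, fun _ => ⟨h2, h3⟩⟩
    · exact ⟨∅, countable_empty, fun h' => absurd h' h⟩
  choose T hTc hTg using hT
  -- the family of small sets
  let 𝒵 : Set (Set (Fin (d + 1) → ℝ)) := insert ∅ {Z | ∃ O ∈ B, ∃ Q ∈ 𝒬, ∃ i : Fin (d + 1), ∃ s ∈ T O Q i,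
    (closure O ⊆ D.U ∧ good O Q i) ∧ Z = {v ∈ closure O | e.symm v ∈ Q ∧ v i = s}}
  have h𝒵c : 𝒵.Countable := by
    apply Countable.insert
    have h1 : {Z | ∃ O ∈ B, ∃ Q ∈ 𝒬, ∃ i : Fin (d + 1), ∃ s ∈ T O Q i,
      (closure O ⊆ D.U ∧ good O Q i) ∧ Z = {v ∈ closure O | e.symm v ∈ Q ∧ v i = s}} ⊆
      ⋃ O ∈ B, ⋃ Q ∈ 𝒬, ⋃ i : Fin (d + 1), (fun s => {v ∈ closure O | e.symm v ∈ Q ∧ v i = s}) '' (T O Q i) := by
      rintro Z ⟨O, hO, Q, hQ, i, s, hs, -, rfl⟩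
      simp only [mem_iUnion]
      exact ⟨O, hO, Q, hQ, i, s, hs, rfl⟩
    refine Countable.mono h1 ?_
    refine hBc.biUnion fun O _ => h𝒬.biUnion fun Q _ => countable_iUnion fun i => (hTc O Q i).image _
  obtain ⟨Z, hZ⟩ := h𝒵c.exists_eq_range ⟨∅, mem_insert _ _⟩
  have hprop : ∀ Z ∈ 𝒵, IsCompact Z ∧ Z ⊆ D.U ∧ ∀ y t, Mv2 D y t Z := by
    rintro Z (rfl | ⟨O, hO, Q, hQ, i, s, hs, ⟨hOU, hg⟩, rfl⟩)
    · exact ⟨isCompact_empty, empty_subset _, fun y t => Mv2.empty D y t⟩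
    · exact ⟨isCompact_slice (Metric.isCompact_of_isClosed_isBounded isClosed_closure (D.hUb.subset hOU))
        (fun v hv => hUt (subset_closure (hOU hv))) (hcl Q hQ) i s, fun v hv => hOU hv.1, (hTg O Q i hg).2 s hs⟩
  have hZ' : ∀ i, Z i ∈ 𝒵 := fun i => by
    rw [hZ]
    exact mem_range_self i
  refine ⟨Z, fun i => (hprop _ (hZ' i)).1, fun i => (hprop _ (hZ' i)).2.1, fun i => (hprop _ (hZ' i)).2.2, ?_⟩
  intro C hCc hCconn hCU hdisj hinv hmov
  obtain ⟨u, hu, Q, hQ, O₁, hO₁, hCQ, hsl⟩ := hlast C hCc hCconn hCU hinv hmov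
  -- `C` is not a point
  have hnt : C.Nontrivial := by
    obtain ⟨b, hb⟩ := hmov u hu 0
    exact ⟨_, hinv _ u hu, u, hu, hb⟩
  -- the basic set
  obtain ⟨O, hO, huO, hOcl⟩ := hBb.exists_closure_subset (inter_mem hO₁ (D.hU.mem_nhds (hCU hu)))
  have hgood : ∀ i, good O Q i := fun i =>
    hsl (closure O) (Metric.isCompact_of_isClosed_isBounded isClosed_closure
      (D.hUb.subset fun v hv => (hOcl hv).2)) hOcl i
  refine box_false hCconn.isPreconnected hnt hu ((hBb.isOpen hO).mem_nhds huO)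
    (S := fun i => T O Q i) (fun i => (hTg O Q i (hgood i)).1) ?_
  rintro i s hs v ⟨hvC, hvO⟩ hvs
  have h1 : {v ∈ closure O | e.symm v ∈ Q ∧ v i = s} ∈ 𝒵 := by
    right
    exact ⟨O, hO, Q, hQ, i, s, hs, ⟨fun v hv => (hOcl hv).2, hgood i⟩, rfl⟩
  rw [hZ] at h1
  obtain ⟨m, hm⟩ := h1
  have h2 : v ∈ Z m := by
    rw [hm]
    exact ⟨subset_closure hvO, hCQ v ⟨hvC, (hOcl (subset_closure hvO)).1⟩, hvs⟩
  exact disjoint_left.mp (hdisj m) hvC h2

end Pool.Agent.HSIO
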