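import Pool.Agent.HSIO.Defs

/-!
# The hypothesis on one action
-/

set_option autoImplicit false

open Set MeasureTheory Metric Filter Topology
open scoped NNReal ENNReal

namespace Pool.Agent.HSIO

open Pool.Agent.Helper3.HS Pool.Agent.HS3 Pool.Agent.Helper83.IO

variable {X : Type*} [MetricSpace X] [MeasurableSpace X] [BorelSpace X]
  {G : Type*} [Group G] [MulAction G X]

/-- The continuum `A` is tame for the action `θ` (`N` is the set of the points of `R` with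
infinite orbit, `n = d + 1`): a countable closed set disconnects `A`, or the energy condition holds
near some point of `A`, or for all `j` there is a point of `A` at which the maps `p ^ j a` of class
`RegAt` are not meagre, or the pairs `(a, x)` such that the restriction of `a` to `N` is regular
at `x` (along one of the scale sequences `r i`, or at a point of one of the closed sets `Cs i`) are
not meagre in `ℤ_p × A`. -/
def TameCont (d : ℕ) (N : Set X) (p : ℕ) [Fact p.Prime] [MeasurableSpace ℤ_[p]]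
    (ν : Measure ℤ_[p]) (θ : Multiplicative ℤ_[p] →* G) (r : ℕ → ℕ → ℝ) (Cs : ℕ → Set X)
    (ms : ℕ → ℝ) (A : Set X) : Prop :=
  (∃ B : Set A, IsClosed B ∧ B.Countable ∧ ¬ IsPreconnected Bᶜ) ∨
  (∃ x ∈ A, ∃ W ∈ 𝓝 x, EnAt d ν θ N W) ∨
  (∀ j : ℕ, ∃ x ∈ A, ¬ IsMeagre {a : ℤ_[p] | RegAt (d + 1)
    (fun z : X => θ (Multiplicative.ofAdd ((p : ℤ_[p]) ^ j * a)) • z) x}) ∨
  ¬ IsMeagre {q : ℤ_[p] × A |
    (∃ i, PtRegOn (r i) (d + 1) (fun z : X => θ (Multiplicative.ofAdd q.1) • z) N (q.2 : X)) ∨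
    ∃ i, (q.2 : X) ∈ Cs i ∧
      HolAt (d + 1) (ms i) N (fun z : X => θ (Multiplicative.ofAdd q.1) • z) (q.2 : X)}

/-- The hypothesis on the action `θ` near the point `x₀`: all continua near `x₀` that consist of
points of `R` with infinite orbit and are invariant under some `p ^ k ℤ_p` are tame. -/
def HypAt (d : ℕ) (R : Set X) (p : ℕ) [Fact p.Prime] [MeasurableSpace ℤ_[p]]
    (ν : Measure ℤ_[p]) (θ : Multiplicative ℤ_[p] →* G) (x₀ : X) : Prop :=
  ∃ W₀ ∈ 𝓝 x₀, ∃ (r : ℕ → ℕ → ℝ) (Cs : ℕ → Set X) (ms : ℕ → ℝ), (∀ i j, 0 < r i j) ∧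
    (∀ i, Tendsto (r i) atTop (𝓝 0)) ∧
    (∀ i, IsClosed (Cs i) ∧ 1 ≤ ms i ∧ (μH[ms i] : Measure X) (Cs i) ≠ ∞) ∧
    ∀ A ⊆ W₀ ∩ InfOrb R θ, IsCompact A → IsConnected A → A.Nontrivial →
      (∃ k : ℕ, ∀ a : ℤ_[p], ∀ x ∈ A,
        θ (Multiplicative.ofAdd ((p : ℤ_[p]) ^ k * a)) • x ∈ A) →
      TameCont d (InfOrb R θ) p ν θ r Cs ms A

end Pool.Agent.HSIO
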