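import Pool.Agent.HSIO.Local
import Pool.Agent.HSIO.Asm
import Pool.Agent.HSIO.Hyp
import Pool.Agent.HS3.OldClass
import Pool.Agent.HS3.Glob

/-!
# All points are of finite type: the global theorem
-/

set_option autoImplicit false
set_option linter.unusedSectionVars false
set_option linter.unusedVariables false

open Set MeasureTheory Metric Filter Topology
open scoped NNReal ENNReal

namespace Pool.Agent.HSIO

open Pool.Agent.Helper3.HS Pool.Agent.HS3 Pool.Agent.Helper83.IO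

variable {d : ℕ} {X : Type*} [MetricSpace X] {G : Type*} [Group G] [TopologicalSpace G]
  [IsTopologicalGroup G] [MulAction G X] [ContinuousSMul G X]

/-- All points of `R` are of finite type. -/
theorem subset_Oinf_io [MeasurableSpace X] [BorelSpace X] {p : ℕ} [hp : Fact p.Prime]
    [MeasurableSpace ℤ_[p]] [BorelSpace ℤ_[p]] {ν : Measure ℤ_[p]} [ν.IsAddHaarMeasure]
    [IsProbabilityMeasure ν] {θ : Multiplicative ℤ_[p] →* G} (hθ : Continuous θ) {R : Set X}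
    (hRo : IsOpen R) (hR : R ⊆ regPts (d + 1) X) (hyp : ∀ x₀ ∈ R, HypAt d R p ν θ x₀) :
    R ⊆ Oinf X θ := by
  intro x₀ hx₀
  obtain ⟨W₁, hW₁, j₀, hold⟩ := old_class_unif (d := d) hθ (hR hx₀)
  obtain ⟨W₀, hW₀, r, Cs, ms, hr, hr0, hCs, hyp'⟩ := hyp x₀ hx₀
  obtain ⟨e, K, hxe, hK, hK'⟩ := hR hx₀
  set u₀ := e x₀ with hu₀
  have hu₀t : u₀ ∈ e.target := e.map_source hxe
  have hsu₀ : e.symm u₀ = x₀ := e.left_inv hxe
  have h1 : (fun q : G × X => q.1 • q.2) ⁻¹' e.source ∈ 𝓝 ((1 : G), x₀) := by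
    apply (e.open_source.preimage continuous_smul).mem_nhds
    rw [mem_preimage, one_smul]
    exact hxe
  obtain ⟨V₀, hV₀, N₁, hN₁, hVN⟩ := mem_nhds_prod_iff.mp h1
  have h2 : e.target ∩ e.symm ⁻¹' (N₁ ∩ R ∩ (W₀ ∩ W₁)) ∈ 𝓝 u₀ := by
    apply inter_mem (e.open_target.mem_nhds hu₀t)
    apply (e.symm.continuousAt hu₀t).preimage_mem_nhds
    rw [hsu₀]
    exact inter_mem (inter_mem hN₁ (hRo.mem_nhds hx₀)) (inter_mem hW₀ hW₁)
  obtain ⟨r₁, hr₁, hball⟩ := Metric.nhds_basis_closedBall.mem_iff.mp h2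
  have hB : closedBall u₀ r₁ ⊆ e.target := fun u hu => (hball hu).1
  have hsrc₀ : ∀ g ∈ V₀, ∀ u ∈ closedBall u₀ r₁, g • e.symm u ∈ e.source := fun g hg u hu =>
    hVN (mk_mem_prod hg (hball hu).2.1.1)
  obtain ⟨V', hV', hV'V, N, hN, hloc⟩ := local_io e hr₁ hB hV₀ hsrc₀
  obtain ⟨k, hk⟩ := exists_pow_mem hθ hV'
  have hθk : Continuous (θ.comp (Pool.Agent.Helper3.HS.mulHom ((p : ℤ_[p]) ^ k))) :=
    hθ.comp (Pool.Agent.Helper3.HS.continuous_mulHom _)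
  have hmem : ∀ a, (θ.comp (mulHom ((p : ℤ_[p]) ^ k))) a ∈ V' := fun a => hk _
  have hyp'' := ioHyp_of_hypAt hθ hK hK' hr hr0 hCs hyp' hr₁ hB (fun u hu => (hball hu).2.1.2)
    (fun u hu => (hball hu).2.2.1) (j₀ := j₀)
    (fun u hu huO => hold j₀ le_rfl (e.symm u) ⟨(hball hu).2.2.2, huO⟩) k
    (fun a u hu => hsrc₀ _ (hV'V (hmem (Multiplicative.ofAdd a))) u hu) (ν := ν) (x₀ := x₀)
  have hfin := hloc p _ hθk hmem hyp''
  refine mem_iUnion.mpr ⟨k, ?_⟩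
  change ∀ᶠ x' in 𝓝 x₀, ∀ a : ℤ_[p], θ (Multiplicative.ofAdd ((p : ℤ_[p]) ^ k * a)) • x' = x'
  rw [hsu₀] at hN
  filter_upwards [hN] with x hx a
  exact hfin (Multiplicative.ofAdd a) x hx

/-- **The global theorem.** -/
theorem final [MeasurableSpace X] [BorelSpace X] {R : Set X} (hRo : IsOpen R) (hRd : Dense R)
    (hRc : IsPreconnected R) (hR : R ⊆ regPts (d + 1) X) :
    ∃ V ∈ 𝓝 (1 : G), ∀ (p : ℕ) [Fact p.Prime] [MeasurableSpace ℤ_[p]] [BorelSpace ℤ_[p]]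
      (ν : Measure ℤ_[p]) [ν.IsAddHaarMeasure] [IsProbabilityMeasure ν]
      (θ : Multiplicative ℤ_[p] →* G), Continuous θ → (∀ x₀ ∈ R, HypAt d R p ν θ x₀) →
      (∃ k : ℕ, ∀ (a : ℤ_[p]) (x : X),
        θ (Multiplicative.ofAdd ((p : ℤ_[p]) ^ k * a)) • x = x) ∧
      ((∀ a, θ a ∈ V) → ∀ a (x : X), θ a • x = x) := by
  rcases R.eq_empty_or_nonempty with hem | ⟨x₀, hx₀⟩
  · have hX : IsEmpty X := by
      rw [hem] at hRd
      by_contra hne
      rw [not_isEmpty_iff] at hne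
      exact absurd hRd.nonempty not_nonempty_empty
    exact ⟨univ, univ_mem, fun p _ _ _ ν _ _ θ _ _ =>
      ⟨⟨0, fun a x => (hX.false x).elim⟩, fun _ a x => (hX.false x).elim⟩⟩
  obtain ⟨V, hV, hloc⟩ := exists_nhd_one (G := G) (hR hx₀) hRo hR hx₀
  refine ⟨V, hV, fun p _ _ _ ν _ _ θ hθ hyp => ?_⟩
  have hRO : R ⊆ Oinf X θ := subset_Oinf_io hθ hRo hR hyp
  refine ⟨?_, fun hθV => ?_⟩
  · obtain ⟨k, hk⟩ := exists_Fx hθ hRc hR hRO
    exact ⟨k, fun a x => closure_Fx_fixed (closure_mono hk (hRd x)) a⟩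
  · have hx₀F : x₀ ∈ Fx θ 0 := hloc p θ hθ hθV hRO
    have hsub : R ⊆ Fx θ 0 := CA.conn_subset_Fx (finNewman (d := d) X) hθ hRo hR hRc
      Subset.rfl hRO hx₀ hx₀F
    intro a x
    have h1 := closure_Fx_fixed (closure_mono hsub (hRd x)) (Multiplicative.toAdd a)
    rwa [pow_zero, one_mul] at h1

end Pool.Agent.HSIO
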