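import Pool.Agent.HSIO.Final

/-!
# The hereditary form: regularity near one point of the closure of the infinite orbits
-/

set_option autoImplicit false
set_option linter.unusedSectionVars false
set_option linter.unusedVariables false

open Set MeasureTheory Metric Filter Topology
open scoped NNReal ENNReal

namespace Pool.Agent.HSIO

open Pool.Agent.Helper3.HS Pool.Agent.HS3 Pool.Agent.Helper83.IO

variable {d : ℕ} {X : Type*} [MetricSpace X] {G : Type*} [Group G] [TopologicalSpace G]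
  [IsTopologicalGroup G] [MulAction G X] [ContinuousSMul G X]

/-- **The local theorem, at one point.** -/
theorem mem_Oinf_io [MeasurableSpace X] [BorelSpace X] {p : ℕ} [hp : Fact p.Prime]
    [MeasurableSpace ℤ_[p]] [BorelSpace ℤ_[p]] {ν : Measure ℤ_[p]} [ν.IsAddHaarMeasure]
    [IsProbabilityMeasure ν] {θ : Multiplicative ℤ_[p] →* G} (hθ : Continuous θ) {R : Set X}
    (hRo : IsOpen R) (hR : R ⊆ regPts (d + 1) X) {x₀ : X} (hx₀ : x₀ ∈ R)
    (hyp : HypAt d R p ν θ x₀) : x₀ ∈ Oinf X θ := by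
  obtain ⟨W₁, hW₁, j₀, hold⟩ := old_class_unif (d := d) hθ (hR hx₀)
  obtain ⟨W₀, hW₀, r, Cs, ms, hr, hr0, hCs, hyp'⟩ := hyp
  obtain ⟨e, K, hxe, hK, hK'⟩ := hR hx₀
  set u₀ := e x₀ with hu₀
  have hu₀t : u₀ ∈ e.target := e.map_source hxe
  have hsu₀ : e.symm u₀ = x₀ := e.left_inv hxe
  have h1 : (fun q : G × X => q.1 • q.2) ⁻¹' e.source ∈ 𝓝 ((1 : G), x₀) := by
    apply (e.open_source.preimage continuous_smul).mem_nhds
    rw [mem_preimage, one_smul]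
    exact hxe
  obtain ⟨V₀, hV₀, N₁, hN₁, hVN⟩ := mem_nhds_prod_iff.mp h1
  have h2 : e.target ∩ e.symm ⁻¹' (N₁ ∩ R ∩ (W₀ ∩ W₁)) ∈ 𝓝 u₀ := by
    apply inter_mem (e.open_target.mem_nhds hu₀t)
    apply (e.symm.continuousAt hu₀t).preimage_mem_nhds
    rw [hsu₀]
    exact inter_mem (inter_mem hN₁ (hRo.mem_nhds hx₀)) (inter_mem hW₀ hW₁)
  obtain ⟨r₁, hr₁, hball⟩ := Metric.nhds_basis_closedBall.mem_iff.mp h2
  have hB : closedBall u₀ r₁ ⊆ e.target := fun u hu => (hball hu).1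
  have hsrc₀ : ∀ g ∈ V₀, ∀ u ∈ closedBall u₀ r₁, g • e.symm u ∈ e.source := fun g hg u hu =>
    hVN (mk_mem_prod hg (hball hu).2.1.1)
  obtain ⟨V', hV', hV'V, N, hN, hloc⟩ := local_io e hr₁ hB hV₀ hsrc₀
  obtain ⟨k, hk⟩ := exists_pow_mem hθ hV'
  have hθk : Continuous (θ.comp (Pool.Agent.Helper3.HS.mulHom ((p : ℤ_[p]) ^ k))) :=
    hθ.comp (Pool.Agent.Helper3.HS.continuous_mulHom _)
  have hmem : ∀ a, (θ.comp (mulHom ((p : ℤ_[p]) ^ k))) a ∈ V' := fun a => hk _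
  have hyp'' := ioHyp_of_hypAt hθ hK hK' hr hr0 hCs hyp' hr₁ hB (fun u hu => (hball hu).2.1.2)
    (fun u hu => (hball hu).2.2.1) (j₀ := j₀)
    (fun u hu huO => hold j₀ le_rfl (e.symm u) ⟨(hball hu).2.2.2, huO⟩) k
    (fun a u hu => hsrc₀ _ (hV'V (hmem (Multiplicative.ofAdd a))) u hu) (ν := ν) (x₀ := x₀)
  have hfin := hloc p _ hθk hmem hyp''
  refine mem_iUnion.mpr ⟨k, ?_⟩
  change ∀ᶠ x' in 𝓝 x₀, ∀ a : ℤ_[p], θ (Multiplicative.ofAdd ((p : ℤ_[p]) ^ k * a)) • x' = x'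
  rw [hsu₀] at hN
  filter_upwards [hN] with x hx a
  exact hfin (Multiplicative.ofAdd a) x hx

/-- At a point of the closure of the infinite orbits the hypothesis never holds. -/
theorem not_hypAt [MeasurableSpace X] [BorelSpace X] {p : ℕ} [hp : Fact p.Prime]
    [MeasurableSpace ℤ_[p]] [BorelSpace ℤ_[p]] {ν : Measure ℤ_[p]} [ν.IsAddHaarMeasure]
    [IsProbabilityMeasure ν] {θ : Multiplicative ℤ_[p] →* G} (hθ : Continuous θ) {R : Set X}
    (hRo : IsOpen R) (hR : R ⊆ regPts (d + 1) X) {x₀ : X} (hx₀ : x₀ ∈ R)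
    (hcl : x₀ ∈ closure (InfOrb R θ)) : ¬ HypAt d R p ν θ x₀ := by
  intro hyp
  obtain ⟨k, hk⟩ := mem_iUnion.mp (mem_Oinf_io hθ hRo hR hx₀ hyp)
  obtain ⟨x, hx1, hx2⟩ := mem_closure_iff_nhds.mp hcl _ hk
  obtain ⟨a, ha⟩ := hx2.2 k
  exact ha (hx1 a)

/-- If there are no infinite orbits the hypothesis holds. -/
theorem hypAt_of_empty [MeasurableSpace X] [BorelSpace X] {p : ℕ} [hp : Fact p.Prime]
    [MeasurableSpace ℤ_[p]] {ν : Measure ℤ_[p]} {θ : Multiplicative ℤ_[p] →* G} {R : Set X}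
    (hem : InfOrb R θ = ∅) (x₀ : X) : HypAt d R p ν θ x₀ := by
  refine ⟨univ, univ_mem, fun _ j => 1 / ((j : ℝ) + 1), fun _ => ∅, fun _ => 1,
    fun _ j => by positivity, fun _ => tendsto_one_div_add_atTop_nhds_zero_nat,
    fun _ => ⟨isClosed_empty, le_rfl, by simp⟩, fun A hA _ _ hnt => ?_⟩
  obtain ⟨x, hx, -⟩ := hnt
  have := (hA hx).2
  rw [hem] at this
  exact this.elim

/-- **The global theorem, hereditary form.** -/
theorem final_her [MeasurableSpace X] [BorelSpace X] {R : Set X} (hRo : IsOpen R) (hRd : Dense R)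
    (hRc : IsPreconnected R) (hR : R ⊆ regPts (d + 1) X) :
    ∃ V ∈ 𝓝 (1 : G), ∀ (p : ℕ) [Fact p.Prime] [MeasurableSpace ℤ_[p]] [BorelSpace ℤ_[p]]
      (ν : Measure ℤ_[p]) [ν.IsAddHaarMeasure] [IsProbabilityMeasure ν]
      (θ : Multiplicative ℤ_[p] →* G), Continuous θ →
      ((InfOrb R θ).Nonempty → ∃ x₀ ∈ R ∩ closure (InfOrb R θ), HypAt d R p ν θ x₀) →
      (∃ k : ℕ, ∀ (a : ℤ_[p]) (x : X),
        θ (Multiplicative.ofAdd ((p : ℤ_[p]) ^ k * a)) • x = x) ∧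
      ((∀ a, θ a ∈ V) → ∀ a (x : X), θ a • x = x) := by
  obtain ⟨V, hV, h⟩ := final (d := d) (G := G) hRo hRd hRc hR
  refine ⟨V, hV, fun p _ _ _ ν _ _ θ hθ hyp => h p ν θ hθ fun x₀ hx₀ => ?_⟩
  rcases (InfOrb R θ).eq_empty_or_nonempty with hem | hne
  · exact hypAt_of_empty hem x₀
  · obtain ⟨x₁, hx₁, hyp₁⟩ := hyp hne
    exact absurd hyp₁ (not_hypAt hθ hRo hR hx₁.1 hx₁.2)

end Pool.Agent.HSIO
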