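import Pool.Agent.HSIO.Deg
import Pool.Agent.HS3.FinNewman

/-!
# The local theorem
-/

set_option autoImplicit false
set_option linter.unusedSectionVars false
set_option linter.unusedVariables false

open Set MeasureTheory Metric Filter Topology
open scoped NNReal ENNReal

namespace Pool.Agent.HSIO

open Pool.Agent.Helper3.HS Pool.Agent.HS3

variable {d : ℕ} {X : Type*} [MetricSpace X] {G : Type*} [Group G] [TopologicalSpace G]
  [MulAction G X] [ContinuousSMul G X]

/-- **The local theorem, one action.** An action with small displacement on a ball for which `IOHyp`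
holds is trivial near the centre. -/
theorem small_core_io {p : ℕ} [hp : Fact p.Prime] {e : OpenPartialHomeomorph X (Fin (d + 1) → ℝ)}
    {θ : Multiplicative ℤ_[p] →* G} {c : Fin (d + 1) → ℝ} {σ : ℝ} (hθ : Continuous θ) (hσ : 0 < σ)
    (hB : closedBall c σ ⊆ e.target)
    (hsrc : ∀ a : ℤ_[p], ∀ u ∈ closedBall c σ, θ (Multiplicative.ofAdd a) • e.symm u ∈ e.source)
    (hyp : IOHyp (cpre hθ hσ hB hsrc))
    (hclose : ∀ a, ∀ u ∈ closedBall c σ, dist (act e θ a u) u ≤ σ / 8) :
    ∀ u ∈ ball c (σ / 4), ∀ a, act e θ a u = u := by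
  by_contra hcon
  push Not at hcon
  obtain ⟨u', hu', hmv⟩ := hcon
  rw [mem_ball] at hu'
  set Γ : ℤ_[p] → (Fin (d + 1) → ℝ) → (Fin (d + 1) → ℝ) := fun a u =>
    act e θ a (clamp c σ u) with hΓ
  have hact : ContinuousOn (fun q : ℤ_[p] × (Fin (d + 1) → ℝ) => act e θ q.1 q.2)
      (univ ×ˢ closedBall c σ) := act_continuousOn hθ hB hsrc
  have hΓc : Continuous (fun q : ℤ_[p] × (Fin (d + 1) → ℝ) => Γ q.1 q.2) :=
    hact.comp_continuous (f := fun q : ℤ_[p] × (Fin (d + 1) → ℝ) => (q.1, clamp c σ q.2))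
      (continuous_fst.prodMk ((continuous_clamp c σ).comp continuous_snd))
      (fun q => ⟨mem_univ _, clamp_mem hσ _⟩)
  obtain ⟨F, hFc, hFinv, hFclose, -⟩ := avg_basic hΓc
  set U := invSet e θ c σ with hU
  have hUo : IsOpen U := invSet_isOpen hθ hB hsrc
  have hUQ : U ⊆ ball c σ := fun u hu => hu.1
  have hUb : Bornology.IsBounded U := isBounded_ball.subset hUQ
  have hUcl : closure U ⊆ closedBall c σ :=
    closure_minimal (hUQ.trans ball_subset_closedBall) isClosed_closedBall
  have hhalf : ball c (σ / 2) ⊆ U := by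
    intro u hu
    rw [mem_ball] at hu
    have huB : u ∈ closedBall c σ := by rw [mem_closedBall]; linarith
    refine ⟨by rw [mem_ball]; linarith, fun a => ?_⟩
    rw [mem_ball]
    have h3 := hclose a u huB
    have h4 := dist_triangle (act e θ a u) u c
    linarith
  have hFfix : ∀ u ∈ closedBall c σ, (∀ a, act e θ a u = u) → F u = u := by
    intro u hu hfu
    have h4 : dist (F u) u ≤ 0 := by
      apply hFclose
      intro a
      rw [hΓ]
      simp only
      rw [clamp_of_mem hσ hu, hfu a, dist_self]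
    exact dist_le_zero.mp h4
  have hFcl : ∀ u ∈ closedBall c σ, dist (F u) u ≤ σ / 8 := by
    intro u hu
    apply hFclose
    intro a
    rw [hΓ]
    simp only
    rw [clamp_of_mem hσ hu]
    exact hclose a u hu
  have hFact : ∀ a, ∀ u ∈ U, F (act e θ a u) = F u := by
    intro b u hu
    apply hFinv u (act e θ b u) b
    intro a
    rw [hΓ]
    simp only
    have hub : act e θ b u ∈ closedBall c σ := ball_subset_closedBall (hu.2 b)
    have huc : u ∈ closedBall c σ := ball_subset_closedBall hu.1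
    rw [clamp_of_mem hσ hub, clamp_of_mem hσ huc, act_add hsrc a b huc]
  have hu'U : u' ∈ U := hhalf (by rw [mem_ball]; linarith)
  have hdeg : HasDeg volume U F u' 1 := by
    apply HasDeg.homotopy volume hUo hUb continuousOn_id hFc.continuousOn
      (HasDeg.id volume hUo hUb hu'U)
    intro u hu t ht heq
    simp only [id] at heq
    have huB : u ∈ closedBall c σ := hUcl (frontier_subset_closure hu)
    have hfar : σ / 2 ≤ dist u c := by
      by_contra hlt
      rw [not_le] at hlt
      rw [hUo.frontier_eq] at hu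
      exact hu.2 (hhalf hlt)
    have e1 : (1 - t) • (u - u') + t • (F u - u') = (u - u') + t • (F u - u) := by module
    rw [e1] at heq
    have h3 : u - u' = -(t • (F u - u)) := eq_neg_of_add_eq_zero_left heq
    have h4 : dist u u' ≤ σ / 8 := by
      rw [dist_eq_norm, h3, norm_neg, norm_smul, Real.norm_of_nonneg ht.1, ← dist_eq_norm]
      calc t * dist (F u) u ≤ 1 * (σ / 8) :=
            mul_le_mul ht.2 (hFcl u huB) dist_nonneg zero_le_one
        _ = σ / 8 := one_mul _
    have h5 := dist_triangle u u' c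
    linarith
  obtain ⟨k, hk⟩ := deg_dvd_chart hθ hσ hB hsrc hyp hFc hFact
    (by
      intro u hu heq
      by_contra hcon
      push Not at hcon
      have huc : u ∈ closedBall c σ := ball_subset_closedBall hu.1
      rw [hFfix u huc hcon] at heq
      rw [heq] at hcon
      obtain ⟨a, ha⟩ := hmv
      exact ha (hcon a)) hdeg
  have hp2 := hp.out.two_le
  have h3 : (1 : ℤ) = p * k := by exact_mod_cast hk
  have h4 : (p : ℤ) ∣ 1 := ⟨k, h3⟩
  have h5 := Int.le_of_dvd one_pos h4
  omega

end Pool.Agent.HSIO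

namespace Pool.Agent.HSIO

open Pool.Agent.Helper3.HS Pool.Agent.HS3

variable {d : ℕ} {X : Type*} [MetricSpace X] {G : Type*} [Group G] [TopologicalSpace G]
  [IsTopologicalGroup G] [MulAction G X] [ContinuousSMul G X]

/-- **The local theorem.** -/
theorem local_io (e : OpenPartialHomeomorph X (Fin (d + 1) → ℝ)) {u₀ : Fin (d + 1) → ℝ} {r₁ : ℝ}
    (hr₁ : 0 < r₁) (hB : closedBall u₀ r₁ ⊆ e.target) {V₀ : Set G} (hV₀ : V₀ ∈ 𝓝 (1 : G))
    (hsrc : ∀ g ∈ V₀, ∀ u ∈ closedBall u₀ r₁, g • e.symm u ∈ e.source) :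
    ∃ V' ∈ 𝓝 (1 : G), ∃ hV' : V' ⊆ V₀, ∃ N ∈ 𝓝 (e.symm u₀),
      ∀ (p : ℕ) [Fact p.Prime] (θ : Multiplicative ℤ_[p] →* G) (hθ : Continuous θ)
        (h : ∀ a, θ a ∈ V'),
        IOHyp (cpre hθ hr₁ hB (fun a u hu => hsrc _ (hV' (h (Multiplicative.ofAdd a))) u hu)) →
        ∀ a, ∀ x ∈ N, θ a • x = x := by
  have hu₀ : u₀ ∈ e.target := hB (mem_closedBall_self hr₁.le)
  have hxe : e.symm u₀ ∈ e.source := e.map_target hu₀
  refine ⟨_, unif_close e hB hsrc hV₀ (by positivity : 0 < r₁ / 8), fun g hg => hg.1,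
    {x | x ∈ e.source ∧ e x ∈ ball u₀ (r₁ / 4)}, ?_, ?_⟩
  · have c1 : ContinuousAt e (e.symm u₀) := e.continuousAt hxe
    have heu : e (e.symm u₀) = u₀ := e.right_inv hu₀
    filter_upwards [e.open_source.mem_nhds hxe, c1.preimage_mem_nhds (ball_mem_nhds _
      (by positivity : 0 < r₁ / 4))] with x a1 a2
    rw [mem_preimage, heu] at a2
    exact ⟨a1, a2⟩
  · intro p hp θ hθ h hyp a x hx
    have hs : ∀ a : ℤ_[p], ∀ u ∈ closedBall u₀ r₁,
        θ (Multiplicative.ofAdd a) • e.symm u ∈ e.source := fun a u hu => hsrc _ (h _).1 u hu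
    have hclose : ∀ a : ℤ_[p], ∀ u ∈ closedBall u₀ r₁, dist (act e θ a u) u ≤ r₁ / 8 := by
      intro a u hu
      have := (h (Multiplicative.ofAdd a)).2 u hu
      rw [one_smul, e.right_inv (hB hu)] at this
      exact this.le
    have h4 := small_core_io hθ hr₁ hB hs hyp hclose (e x) hx.2 (Multiplicative.toAdd a)
    unfold act at h4
    have hxB : e x ∈ closedBall u₀ r₁ := by
      have := hx.2
      rw [mem_ball] at this
      rw [mem_closedBall]
      linarith
    have h5 := hs (Multiplicative.toAdd a) (e x) hxB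
    rw [ofAdd_toAdd, e.left_inv hx.1] at h4 h5
    exact e.injOn h5 hx.1 h4

end Pool.Agent.HSIO
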